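import Pool.Agent.H43R.HDef
import Pool.Agent.TH255.QI.Main

/-!
# Sequences whose range is Diophantine, and two examples
-/

set_option autoImplicit false

namespace Pool.Agent.H43R

open Polynomial Filter
open Pool.Agent.TH255.HC Pool.Agent.TH255.QI Pool.Agent.K9h58.QD

/-- the range of a computable function is recursively enumerable -/
lemma range_re {f : ℕ → ℕ} (hf : Computable f) : REPred (fun m => ∃ n, m = f n) := by
  have h1 : Computable₂ (fun m n : ℕ => (m == f n : Bool)) :=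
    (Primrec.beq (α := ℕ)).to_comp.comp Computable.fst (hf.comp Computable.snd)
  refine (Partrec.rfind h1.partrec₂).dom_re.of_eq fun m => ?_
  rw [Nat.rfind_dom]
  constructor
  · rintro ⟨n, hn, -⟩
    have h3 := Part.mem_some_iff.1 hn
    exact ⟨n, by simpa using h3.symm⟩
  · rintro ⟨n, hn⟩
    refine ⟨n, Part.mem_some_iff.2 ?_, fun _ => trivial⟩
    simpa using hn

/-- if the set of the integers is Diophantine over `ℚ`, so are all r.e. sets -/
lemma dioph_re (h : K9h58.QD.Dioph (fun x => ∃ z : ℤ, x = z)) {W : ℕ → Prop} (hW : REPred W) :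
    K9h58.QD.Dioph (fun x => ∃ n : ℕ, x = n ∧ W n) := by
  have h1 : DT (fun T => (∀ x ∈ T, ∃ z : ℤ, x = z) ∧
      Banach (MvPolynomial.X 0 : MvPolynomial (Fin 1) ℤ) 1 T)
      (fun _ v => ∃ n : ℕ, v 0 = n ∧ W n) :=
    dt_banach _ one_pos fun _ _ h => dt_re h hW
  exact dioph_sub (T := ZZ) (P := fun x => ∃ n : ℕ, x = n ∧ W n) ⟨fun _ h => h, zz_banach⟩ h h1

lemma dns_univ {θ : ℝ} (hθ : θ ≤ 1) : Dns Set.univ θ := by
  intro L
  refine ⟨L, 0, le_rfl, ?_⟩
  have h1 : {n : ℕ | 0 ≤ n ∧ n < 0 + L ∧ n ∈ (Set.univ : Set ℕ)} = Set.Iio L := by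
    ext n
    simp
  rw [h1, ← Finset.coe_Iio, Set.ncard_coe_finset, Nat.card_Iio]
  have : (0 : ℝ) ≤ L := Nat.cast_nonneg _
  nlinarith

/-- the equivalence for computable sequences of natural numbers -/
theorem dioph_iff {f : ℕ → ℕ} (hf : Computable f) (ha : PRec (fun n => (f n : ℚ)))
    (hns : ∀ g : ℚ[X], Squarefree g → ¬ EvAnn g (fun n => (f n : ℚ))) {m : ℚ}
    (hm : Grow (fun n => (f n : ℚ)) m) :
    K9h58.QD.Dioph (fun x => ∃ z : ℤ, x = z) ↔
      K9h58.QD.Dioph (fun x => ∃ n, x = (f n : ℚ)) := by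
  constructor
  · intro h
    have h1 := dioph_re h (range_re hf)
    obtain ⟨n, p, hp⟩ := h1
    refine ⟨n, p, fun x => ?_⟩
    rw [← hp]
    constructor
    · rintro ⟨n, rfl⟩
      exact ⟨f n, rfl, n, rfl⟩
    · rintro ⟨m, rfl, n, rfl⟩
      exact ⟨n, rfl⟩
  · intro h
    obtain ⟨K, hd⟩ := dt_hol ha hns hm
    have h2 : K9h58.QD.Dioph (fun x => x ∈ (fun n => (f n : ℚ)) '' Set.univ) := by
      obtain ⟨n, p, hp⟩ := h
      refine ⟨n, p, fun x => ?_⟩
      rw [← hp]
      constructor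
      · rintro ⟨n, -, rfl⟩
        exact ⟨n, rfl⟩
      · rintro ⟨n, rfl⟩
        exact ⟨n, trivial, rfl⟩
    refine dioph_sub (P := fun x => ∃ z : ℤ, x = z) ⟨Set.univ, ?_, rfl⟩ h2
      (hd one_pos (P' := fun v => ∃ z : ℤ, v 0 = z) fun _ _ h => dt_int h)
    simp only [Set.mem_univ, implies_true]
    exact dns_univ le_rfl

/-! ### the numbers `n 2 ^ n` -/

lemma comp_two : Computable (fun n : ℕ => n * 2 ^ n) := by
  have h1 : Primrec (fun n : ℕ => (Nat.rec 1 (fun _ y => 2 * y) n : ℕ)) :=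
    Primrec.nat_rec₁ 1 ((Primrec.nat_mul.comp (Primrec.const 2) Primrec.snd).to₂)
  have h2 : Primrec (fun n : ℕ => n * (Nat.rec 1 (fun _ y => 2 * y) n : ℕ)) :=
    Primrec.nat_mul.comp Primrec.id h1
  refine (h2.of_eq fun n => ?_).to_comp
  congr 1
  induction n with
  | zero => rfl
  | succ n ih =>
    rw [pow_succ, ← ih, mul_comm]

lemma prec_two : PRec (fun n : ℕ => ((n * 2 ^ n : ℕ) : ℚ)) := by
  refine ⟨1, fun i => if i = 0 then -(2 * X + 2) else X, ⟨1, le_rfl, ?_⟩,
    Eventually.of_forall fun n => ?_⟩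
  · simp
  · unfold op
    rw [Finset.sum_range_succ, Finset.sum_range_one]
    simp
    ring

lemma grow_two : Grow (fun n : ℕ => ((n * 2 ^ n : ℕ) : ℚ)) (3 / 2) := by
  refine ⟨by norm_num, eventually_atTop.2 ⟨9, fun n hn => ?_⟩⟩
  have h1 : (9 : ℚ) ≤ n := by exact_mod_cast hn
  have h2 : (0 : ℚ) < 2 ^ n := by positivity
  push_cast
  rw [abs_of_nonneg (by positivity), abs_of_nonneg (by positivity), pow_succ]
  constructor
  · nlinarith
  · nlinarith

lemma nonsimple_two {g : ℚ[X]} (hg : Squarefree g) :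
    ¬ EvAnn g (fun n : ℕ => ((n * 2 ^ n : ℕ) : ℚ)) := by
  intro h
  obtain ⟨N, hN⟩ := eventually_atTop.1 h
  have key : ∀ n : ℕ, ac g (fun n : ℕ => ((n * 2 ^ n : ℕ) : ℚ)) n =
      2 ^ n * (n * g.eval 2 + 2 * (derivative g).eval 2) := by
    intro n
    rw [ac_apply, derivative_eval, eval_eq_sum]
    rw [Polynomial.sum_def, Polynomial.sum_def, Polynomial.sum_def, Finset.mul_sum,
      Finset.mul_sum, ← Finset.sum_add_distrib, Finset.mul_sum]
    refine Finset.sum_congr rfl fun i _ => ?_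
    push_cast
    rcases i with _ | i
    · simp
      ring
    · simp only [Nat.add_sub_cancel]
      push_cast
      ring
  have h1 := hN N le_rfl
  have h2 := hN (N + 1) (by omega)
  rw [key] at h1 h2
  have h3 := (mul_eq_zero.1 h1).resolve_left (by positivity)
  have h4 := (mul_eq_zero.1 h2).resolve_left (by positivity)
  push_cast at h4
  have h5 : g.eval 2 = 0 := by linarith
  have h6 : (derivative g).eval 2 = 0 := by
    rw [h5] at h3
    linarith
  have h7 : (X - C 2) ^ 2 ∣ g :=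
    (le_rootMultiplicity_iff hg.ne_zero).1
      ((one_lt_rootMultiplicity_iff_isRoot hg.ne_zero).2 ⟨h5, h6⟩)
  have h8 := hg (X - C 2) (by rwa [← sq])
  exact not_isUnit_X_sub_C 2 h8

/-! ### the central binomial coefficients -/

lemma comp_central : Computable Nat.centralBinom := by
  have h1 : Primrec (fun n : ℕ =>
      (Nat.rec 1 (fun n y => 2 * (2 * n + 1) * y / (n + 1)) n : ℕ)) := by
    refine Primrec.nat_rec₁ 1 ?_
    have e1 : Primrec (fun p : ℕ × ℕ => 2 * (2 * p.1 + 1)) :=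
      Primrec.nat_mul.comp (Primrec.const 2)
        (Primrec.succ.comp (Primrec.nat_mul.comp (Primrec.const 2) Primrec.fst))
    exact (Primrec.nat_div.comp (Primrec.nat_mul.comp e1 Primrec.snd)
      (Primrec.succ.comp Primrec.fst)).to₂
  refine (h1.of_eq fun n => ?_).to_comp
  induction n with
  | zero => rfl
  | succ n ih =>
    have e2 := Nat.succ_mul_centralBinom_succ n
    change 2 * (2 * n + 1) * (Nat.rec 1 (fun n y => 2 * (2 * n + 1) * y / (n + 1)) n : ℕ) /
      (n + 1) = _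
    rw [ih, ← e2, Nat.mul_div_cancel_left _ (Nat.succ_pos n)]

lemma prec_central : PRec (fun n : ℕ => (n.centralBinom : ℚ)) := by
  refine ⟨1, fun i => if i = 0 then -(4 * X + 2) else X + 1, ⟨1, le_rfl, ?_⟩,
    Eventually.of_forall fun n => ?_⟩
  · simp only [one_ne_zero, if_false]
    exact X_add_C_ne_zero 1
  · unfold op
    rw [Finset.sum_range_succ, Finset.sum_range_one]
    have h1 : ((n : ℚ) + 1) * ((n + 1).centralBinom : ℚ) =
        2 * (2 * n + 1) * (n.centralBinom : ℚ) := by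
      exact_mod_cast Nat.succ_mul_centralBinom_succ n
    simp
    rw [h1]
    ring

lemma grow_central : Grow (fun n : ℕ => (n.centralBinom : ℚ)) 3 := by
  refine ⟨by norm_num, eventually_atTop.2 ⟨2, fun n hn => ?_⟩⟩
  have h1 : ((n : ℚ) + 1) * ((n + 1).centralBinom : ℚ) =
      2 * (2 * n + 1) * (n.centralBinom : ℚ) := by
    exact_mod_cast Nat.succ_mul_centralBinom_succ n
  have h2 : (2 : ℚ) ≤ n := by exact_mod_cast hn
  have h3 : (0 : ℚ) < n.centralBinom := by exact_mod_cast n.centralBinom_pos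
  have h4 : (0 : ℚ) < (n + 1).centralBinom := by exact_mod_cast (n + 1).centralBinom_pos
  dsimp only
  rw [abs_of_pos h3, abs_of_pos h4]
  have h5 : (0 : ℚ) < (n : ℚ) + 1 := by linarith
  constructor
  · refine lt_of_mul_lt_mul_left ?_ h5.le
    rw [h1]
    nlinarith
  · refine lt_of_mul_lt_mul_left ?_ h5.le
    rw [h1]
    nlinarith

lemma nonsimple_central {g : ℚ[X]} (hg : g ≠ 0) :
    ¬ EvAnn g (fun n : ℕ => (n.centralBinom : ℚ)) := by
  intro h
  obtain ⟨N, hN⟩ := eventually_atTop.1 h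
  set d := g.natDegree with hd
  -- the quotients
  have hq : ∀ (i n : ℕ), (∏ j ∈ Finset.range i, ((n : ℚ) + j + 1)) * ((n + i).centralBinom : ℚ) =
      (∏ j ∈ Finset.range i, (2 * (2 * ((n : ℚ) + j) + 1))) * (n.centralBinom : ℚ) := by
    intro i n
    induction i with
    | zero => simp
    | succ i ih =>
      rw [Finset.prod_range_succ, Finset.prod_range_succ]
      have h1 : (((n + i : ℕ) : ℚ) + 1) * ((n + i + 1).centralBinom : ℚ) =
          2 * (2 * ((n + i : ℕ) : ℚ) + 1) * ((n + i).centralBinom : ℚ) := by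
        exact_mod_cast Nat.succ_mul_centralBinom_succ (n + i)
      push_cast at h1
      calc _ = (∏ j ∈ Finset.range i, ((n : ℚ) + j + 1)) *
            (((n : ℚ) + i + 1) * ((n + i + 1).centralBinom : ℚ)) := by
              rw [add_assoc n i 1]; ring
        _ = (2 * (2 * ((n : ℚ) + i) + 1)) *
            ((∏ j ∈ Finset.range i, ((n : ℚ) + j + 1)) * ((n + i).centralBinom : ℚ)) := by
              rw [h1]; ring
        _ = _ := by rw [ih]; ring
  set P : ℚ[X] := ∑ i ∈ Finset.range (d + 1), C (g.coeff i) *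
    ((∏ j ∈ Finset.range i, (2 * (2 * (X + C (j : ℚ)) + 1))) *
      ∏ j ∈ Finset.Ico i d, (X + C (j : ℚ) + 1)) with hP
  have hPe : ∀ x : ℚ, P.eval x = ∑ i ∈ Finset.range (d + 1), g.coeff i *
      ((∏ j ∈ Finset.range i, (2 * (2 * (x + j) + 1))) *
      ∏ j ∈ Finset.Ico i d, (x + j + 1)) := by
    intro x
    rw [hP, eval_finsetSum]
    refine Finset.sum_congr rfl fun i _ => ?_
    rw [eval_mul, eval_mul, eval_prod, eval_prod, eval_C]
    simp
  have hP0 : P = 0 := by
    refine eq_of_infinite_eval_eq P 0 ?_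
    refine Set.Infinite.mono (s := (fun n : ℕ => (n : ℚ)) '' Set.Ici N) ?_
      ((Set.Ici_infinite N).image (Nat.cast_injective.injOn))
    rintro _ ⟨n, hn, rfl⟩
    change P.eval (n : ℚ) = eval (n : ℚ) 0
    rw [eval_zero]
    have h1 := hN n hn
    rw [ac_range g _ n le_rfl, ← hd] at h1
    have h2 : P.eval (n : ℚ) * (n.centralBinom : ℚ) =
        (∏ j ∈ Finset.range d, ((n : ℚ) + j + 1)) *
        ∑ i ∈ Finset.range (d + 1), g.coeff i * ((n + i).centralBinom : ℚ) := by
      rw [hPe, Finset.sum_mul, Finset.mul_sum]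
      refine Finset.sum_congr rfl fun i hi => ?_
      have h3 : i ≤ d := by have := Finset.mem_range.1 hi; omega
      have h4 : (∏ j ∈ Finset.range d, ((n : ℚ) + j + 1)) =
          (∏ j ∈ Finset.range i, ((n : ℚ) + j + 1)) *
            ∏ j ∈ Finset.Ico i d, ((n : ℚ) + j + 1) :=
        (Finset.prod_range_mul_prod_Ico _ h3).symm
      rw [h4]
      have h5 := hq i n
      calc _ = g.coeff i * (∏ j ∈ Finset.Ico i d, ((n : ℚ) + j + 1)) *
            ((∏ j ∈ Finset.range i, (2 * (2 * ((n : ℚ) + j) + 1))) * (n.centralBinom : ℚ)) := by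
              ring
        _ = _ := by rw [← h5]; ring
    rw [h1, mul_zero] at h2
    exact (mul_eq_zero.1 h2).resolve_right (by exact_mod_cast n.centralBinom_ne_zero)
  have h6 := hPe (-d)
  rw [hP0, eval_zero, Finset.sum_range_succ, Finset.sum_eq_zero, zero_add, Finset.Ico_self,
    Finset.prod_empty, mul_one] at h6
  · rcases mul_eq_zero.1 h6.symm with h7 | h7
    · rw [hd, coeff_natDegree, leadingCoeff_eq_zero] at h7
      exact hg h7
    · rw [Finset.prod_eq_zero_iff] at h7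
      obtain ⟨j, -, hj⟩ := h7
      have h8 : (2 : ℚ) * (-(d : ℚ) + j) + 1 = 0 := by linarith
      have h9 : (2 : ℤ) * (-(d : ℤ) + j) + 1 = 0 := by exact_mod_cast h8
      omega
  · intro i hi
    rw [Finset.mem_range] at hi
    have h7 : ∏ j ∈ Finset.Ico i d, (-(d : ℚ) + j + 1) = 0 := by
      refine Finset.prod_eq_zero (i := d - 1) (Finset.mem_Ico.2 ⟨by omega, by omega⟩) ?_
      have h8 : ((d - 1 : ℕ) : ℚ) = (d : ℚ) - 1 := by
        rw [Nat.cast_sub (by omega)]
        simp
      rw [h8]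
      ring
    rw [h7, mul_zero, mul_zero]

end Pool.Agent.H43R
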