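import Mathlib

/-!
# Consecutive terms of a sequence of exponential growth

If `m |a n| < |a (n + 1)| < m ^ 2 |a n|` for all large `n`, with some `m > 1`, then the pairs of
consecutive terms (beyond the first terms) are recognised by their sizes.
-/

set_option autoImplicit false

namespace Pool.Agent.H43R

open Filter Topology

/-- the ratios of the terms are eventually in the interval `(m, m ^ 2)` -/
def Grow (a : ℕ → ℚ) (m : ℚ) : Prop :=
  1 < m ∧ ∀ᶠ n in atTop, m * |a n| < |a (n + 1)| ∧ |a (n + 1)| < m ^ 2 * |a n|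

theorem consecutive (a : ℕ → ℚ) {m : ℚ} (h : Grow a m) (N₀ : ℕ) :
    ∃ (B : ℚ) (n₁ : ℕ), 0 ≤ B ∧
      (∀ n, n₁ ≤ n → B < |a n| ∧ a n ^ 2 < a (n + 1) ^ 2 ∧
        a (n + 1) ^ 2 < m ^ 4 * a n ^ 2) ∧
      (∀ i, B < |a i| → N₀ ≤ i) ∧
      ∀ i j, B < |a i| → B < |a j| → a i ^ 2 < a j ^ 2 → a j ^ 2 < m ^ 4 * a i ^ 2 →
        j = i + 1 := by
  obtain ⟨hm, h⟩ := h
  obtain ⟨n₀, hn₀⟩ := eventually_atTop.1 h
  have hm0 : 0 < m := by linarith
  have hpos : ∀ n, n₀ ≤ n → 0 < |a n| := by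
    intro n hn
    obtain ⟨h1, h2⟩ := hn₀ n hn
    by_contra hc
    have h3 : |a n| = 0 := le_antisymm (not_lt.1 hc) (abs_nonneg _)
    rw [h3, mul_zero] at h1 h2
    linarith
  have hgk : ∀ n, n₀ ≤ n → ∀ k, m ^ k * |a n| ≤ |a (n + k)| := by
    intro n hn k
    induction k with
    | zero => simp
    | succ k ih =>
      have e1 := (hn₀ (n + k) (by omega)).1
      calc m ^ (k + 1) * |a n| = m * (m ^ k * |a n|) := by ring
        _ ≤ m * |a (n + k)| := mul_le_mul_of_nonneg_left ih hm0.le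
        _ ≤ _ := e1.le
  -- the bound
  set n₂ := max n₀ N₀ with hn₂
  set B : ℚ := ∑ i ∈ Finset.range n₂, |a i| with hB
  have hB0 : 0 ≤ B := Finset.sum_nonneg fun _ _ => abs_nonneg _
  have hBi : ∀ i, B < |a i| → n₂ ≤ i := by
    intro i hi
    by_contra hc
    push Not at hc
    have := Finset.single_le_sum (f := fun i => |a i|) (fun _ _ => abs_nonneg _)
      (Finset.mem_range.2 hc)
    linarith
  obtain ⟨K, hK⟩ : ∃ K : ℕ, ∀ k, K ≤ k → B < m ^ k * |a n₀| := by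
    have e1 : Tendsto (fun k : ℕ => m ^ k * |a n₀|) atTop atTop :=
      (tendsto_pow_atTop_atTop_of_one_lt hm).atTop_mul_const (hpos n₀ le_rfl)
    exact eventually_atTop.1 (e1.eventually_gt_atTop B)
  refine ⟨B, n₀ + K, hB0, fun n hn => ?_, fun i hi => (le_max_right _ _).trans (hBi i hi),
    fun i j hi hj hij1 hij2 => ?_⟩
  · obtain ⟨k, rfl⟩ : ∃ k, n = n₀ + k := ⟨n - n₀, by omega⟩
    obtain ⟨e4, e5⟩ := hn₀ (n₀ + k) (by omega)
    have e6 := hpos (n₀ + k) (by omega)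
    refine ⟨lt_of_lt_of_le (hK k (by omega)) (hgk n₀ le_rfl k), ?_, ?_⟩
    · rw [sq_lt_sq]
      nlinarith
    · have e7 : m ^ 4 * a (n₀ + k) ^ 2 = (m ^ 2 * a (n₀ + k)) ^ 2 := by ring
      rw [e7, sq_lt_sq, abs_mul, abs_of_pos (by positivity : 0 < m ^ 2)]
      exact e5
  · have hi' := (le_max_left n₀ N₀).trans (hBi i hi)
    have hj' := (le_max_left n₀ N₀).trans (hBi j hj)
    have e7 : m ^ 4 * a i ^ 2 = (m ^ 2 * a i) ^ 2 := by ring
    rw [e7, sq_lt_sq, abs_mul, abs_of_pos (by positivity : 0 < m ^ 2)] at hij2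
    rw [sq_lt_sq] at hij1
    rcases lt_trichotomy j (i + 1) with hlt | heq | hgt
    · exfalso
      obtain ⟨k, rfl⟩ : ∃ k, i = j + k := ⟨i - j, by omega⟩
      have e12 := hgk j hj' k
      have e13 : 1 ≤ m ^ k := one_le_pow₀ hm.le
      have e14 : |a j| ≤ m ^ k * |a j| := le_mul_of_one_le_left (abs_nonneg _) e13
      linarith
    · exact heq
    · exfalso
      obtain ⟨k, rfl⟩ : ∃ k, j = i + (k + 2) := ⟨j - i - 2, by omega⟩
      have e12 := hgk i hi' (k + 2)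
      have e13 : m ^ 2 ≤ m ^ (k + 2) := pow_le_pow_right₀ hm.le (by omega)
      have e14 : m ^ 2 * |a i| ≤ m ^ (k + 2) * |a i| :=
        mul_le_mul_of_nonneg_right e13 (abs_nonneg _)
      linarith

end Pool.Agent.H43R
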