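import Pool.Agent.K9h58.QD.Dio
import Pool.Agent.H43R.Win

/-!
# Existential definitions with the terms of a sequence of exponential growth
-/

set_option autoImplicit false

namespace Pool.Agent.H43R

open MvPolynomial Filter Topology
open Pool.Agent.TH255.HC Pool.Agent.TH255.QI Pool.Agent.K9h58.QD

variable {𝒯 : Set ℚ → Prop}

theorem dt_lt {f g : (ℕ → ℚ) → ℚ} (hf : PF f) (hg : PF g) : DT 𝒯 (fun _ v => f v < g v) :=
  ((DT.le hf hg).and (DT.ne hf hg)).congr fun _ _ _ => lt_iff_le_and_ne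

theorem dt_rat_lt (c : ℚ) {f g : (ℕ → ℚ) → ℚ} (hf : PF f) (hg : PF g) :
    DT 𝒯 (fun _ v => c * f v < g v) := by
  refine (dt_lt (f := fun v => (c.num : ℚ) * f v) (g := fun v => ((c.den : ℤ) : ℚ) * g v)
    ((PF.int c.num).mul hf) ((PF.int (c.den : ℤ)).mul hg)).congr fun _ _ v => ?_
  have hd : (0 : ℚ) < ((c.den : ℤ) : ℚ) := by exact_mod_cast c.den_pos
  have h1 : (c.num : ℚ) = ((c.den : ℤ) : ℚ) * c := by
    rw [mul_comm]
    exact_mod_cast (Rat.mul_den_eq_num c).symm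
  rw [h1, mul_assoc, mul_lt_mul_iff_right₀ hd]

theorem dt_lt_rat (c : ℚ) {f g : (ℕ → ℚ) → ℚ} (hf : PF f) (hg : PF g) :
    DT 𝒯 (fun _ v => g v < c * f v) := by
  refine (dt_lt (f := fun v => ((c.den : ℤ) : ℚ) * g v) (g := fun v => (c.num : ℚ) * f v)
    ((PF.int (c.den : ℤ)).mul hg) ((PF.int c.num).mul hf)).congr fun _ _ v => ?_
  have hd : (0 : ℚ) < ((c.den : ℤ) : ℚ) := by exact_mod_cast c.den_pos
  have h1 : (c.num : ℚ) = ((c.den : ℤ) : ℚ) * c := by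
    rw [mul_comm]
    exact_mod_cast (Rat.mul_den_eq_num c).symm
  rw [h1, mul_assoc, mul_lt_mul_iff_right₀ hd]

/-- the numbers recovered from windows of consecutive elements of `T` -/
def Ph (k : ℕ) (B m : ℚ) (P Q : MvPolynomial (Fin (k + 1)) ℤ) (T : Set ℚ) : Set ℚ :=
  {x | ∃ u : ℕ → ℚ, (∀ i ∈ List.range (k + 1), u i ∈ T ∧ B ^ 2 * 1 < u i ^ 2) ∧
    (∀ i ∈ List.range k, u i ^ 2 < u (i + 1) ^ 2 ∧ u (i + 1) ^ 2 < m ^ 4 * u i ^ 2) ∧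
    aeval (fun i : Fin (k + 1) => u i) Q ≠ 0 ∧
    x * aeval (fun i : Fin (k + 1) => u i) Q = aeval (fun i : Fin (k + 1) => u i) P}

lemma pf_win {k : ℕ} (P : MvPolynomial (Fin (k + 1)) ℤ) :
    PF (fun w : ℕ → ℚ => aeval (fun i : Fin (k + 1) => w (2 * (i : ℕ) + 1)) P) := by
  refine ⟨rename (fun i : Fin (k + 1) => 2 * (i : ℕ) + 1) P, fun v => ?_⟩
  rw [aeval_rename]
  rfl

theorem dt_Ph (k : ℕ) (B m : ℚ) (P Q : MvPolynomial (Fin (k + 1)) ℤ) :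
    DT 𝒯 (fun T v => v 0 ∈ Ph k B m P Q T) := by
  refine DT.exs (P := fun T v u => (∀ i ∈ List.range (k + 1), u i ∈ T ∧ B ^ 2 * 1 < u i ^ 2) ∧
    (∀ i ∈ List.range k, u i ^ 2 < u (i + 1) ^ 2 ∧ u (i + 1) ^ 2 < m ^ 4 * u i ^ 2) ∧
    aeval (fun i : Fin (k + 1) => u i) Q ≠ 0 ∧
    v 0 * aeval (fun i : Fin (k + 1) => u i) Q = aeval (fun i : Fin (k + 1) => u i) P) ?_
  refine DT.and ?_ (DT.and ?_ (DT.and ?_ ?_))
  · exact DT.list _ fun i => (DT.mem (PF.od i)).and (dt_rat_lt (B ^ 2) PF.one ((PF.od i).pow 2))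
  · exact DT.list _ fun i => (dt_lt ((PF.od i).pow 2) ((PF.od (i + 1)).pow 2)).and
      (dt_lt_rat (m ^ 4) ((PF.od i).pow 2) ((PF.od (i + 1)).pow 2))
  · exact DT.ne (pf_win Q) PF.zero
  · exact DT.eq ((PF.var (2 * 0)).mul (pf_win Q)) (pf_win P)

/-- the window of the sequence at `n` -/
def win (a : ℕ → ℚ) (k n : ℕ) (i : Fin (k + 1)) : ℚ := a (n + i)

lemma abs_of_sq {B x : ℚ} (hB : 0 ≤ B) (h : B ^ 2 * 1 < x ^ 2) : B < |x| := by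
  rw [mul_one] at h
  have := sq_lt_sq.1 h
  rwa [abs_of_nonneg hB] at this

/-- the numbers `b n` for the windows in `T` beyond `n₁` at which `Q` does not vanish -/
def Rec (a : ℕ → ℚ) {k : ℕ} (Q : MvPolynomial (Fin (k + 1)) ℤ) (b : ℕ → ℤ) (n₁ : ℕ)
    (T : Set ℚ) : Set ℚ :=
  {x | ∃ n, n₁ ≤ n ∧ (∀ i, win a k n i ∈ T) ∧ aeval (win a k n) Q ≠ 0 ∧ x = b n}

theorem ph_sub (a : ℕ → ℚ) {k : ℕ} {B m : ℚ} (P Q : MvPolynomial (Fin (k + 1)) ℤ)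
    {n₁ N₀ : ℕ} (hB : 0 ≤ B) (b : ℕ → ℤ)
    (h1 : ∀ n, n₁ ≤ n → B < |a n| ∧ a n ^ 2 < a (n + 1) ^ 2 ∧ a (n + 1) ^ 2 < m ^ 4 * a n ^ 2)
    (h2 : ∀ i, B < |a i| → N₀ ≤ i)
    (h3 : ∀ i j, B < |a i| → B < |a j| → a i ^ 2 < a j ^ 2 → a j ^ 2 < m ^ 4 * a i ^ 2 →
        j = i + 1)
    (hPQ : ∀ n, N₀ ≤ n → aeval (win a k n) P = (b n : ℚ) * aeval (win a k n) Q)
    {T : Set ℚ} (hT : T ⊆ Set.range a) :
    (∀ x ∈ Ph k B m P Q T, ∃ z : ℤ, x = z) ∧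
      Rec a Q b (max n₁ N₀) T ⊆ Ph k B m P Q T := by
  constructor
  · rintro x ⟨u, hu1, hu2, hu3, hu4⟩
    obtain ⟨hn0, hn'⟩ := hu1 0 (by simp)
    obtain ⟨n, hn⟩ := hT hn0
    have key : ∀ i, i ≤ k → u i = a (n + i) := by
      intro i
      induction i with
      | zero => exact fun _ => hn.symm
      | succ i ih =>
        intro hi
        have e1 := ih (by omega)
        obtain ⟨hm0, hm'⟩ := hu1 (i + 1) (by rw [List.mem_range]; omega)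
        obtain ⟨j, hm⟩ := hT hm0
        obtain ⟨-, hi'⟩ := hu1 i (by rw [List.mem_range]; omega)
        obtain ⟨e2, e3⟩ := hu2 i (by rw [List.mem_range]; omega)
        rw [← hm] at hm' e2 e3 ⊢
        rw [e1] at hi' e2 e3
        have e4 := h3 (n + i) j (abs_of_sq hB hi') (abs_of_sq hB hm') e2 e3
        rw [e4]
        rfl
    have hw : (fun i : Fin (k + 1) => u i) = win a k n := by
      funext i
      exact key i (by omega)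
    rw [hw] at hu3 hu4
    have hN : N₀ ≤ n := h2 n (by rw [hn]; exact abs_of_sq hB hn')
    rw [hPQ n hN] at hu4
    exact ⟨b n, mul_right_cancel₀ hu3 hu4⟩
  · rintro x ⟨n, hn, hw, hQ, rfl⟩
    have hn1 : n₁ ≤ n := (le_max_left _ _).trans hn
    refine ⟨fun i => a (n + i), fun i hi => ⟨?_, ?_⟩, fun i _ => ?_, hQ, ?_⟩
    · exact hw ⟨i, List.mem_range.1 hi⟩
    · have e1 := (h1 (n + i) (by omega)).1
      rw [mul_one]
      exact sq_lt_sq.2 (by rwa [abs_of_nonneg hB])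
    · exact (h1 (n + i) (by omega)).2
    · exact (hPQ n ((le_max_right _ _).trans hn)).symm

lemma banach_mono {r : ℕ} {G : MvPolynomial (Fin r) ℤ} {α : ℝ} {S S' : Set ℚ} (h : S ⊆ S')
    (hS : Banach G α S) : Banach G α S' := by
  intro l₀
  obtain ⟨l, s, hl, hls⟩ := hS l₀
  refine ⟨l, s, hl, hls.trans ?_⟩
  have hf : {m : ℤ | s ≤ m ∧ m < s + l ∧ ∃ t : Fin r → ℚ, (∀ i, t i ∈ S') ∧
      aeval t G = (m : ℚ)}.Finite :=
    (Set.finite_Ico s (s + l)).subset fun m hm => ⟨hm.1, hm.2.1⟩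
  have hsub : {m : ℤ | s ≤ m ∧ m < s + l ∧ ∃ t : Fin r → ℚ, (∀ i, t i ∈ S) ∧
      aeval t G = (m : ℚ)} ⊆ {m : ℤ | s ≤ m ∧ m < s + l ∧ ∃ t : Fin r → ℚ, (∀ i, t i ∈ S') ∧
      aeval t G = (m : ℚ)} := by
    rintro m ⟨hm1, hm2, t, ht, ht'⟩
    exact ⟨hm1, hm2, t, fun i => h (ht i), ht'⟩
  exact_mod_cast Set.ncard_le_ncard hsub hf

/-- the main step -/
theorem dt_seq (a : ℕ → ℚ) {m : ℚ} (hm : Grow a m) {k : ℕ}
    (P Q : MvPolynomial (Fin (k + 1)) ℤ) (b : ℕ → ℤ) (N₀ : ℕ)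
    (hPQ : ∀ n, N₀ ≤ n → aeval (win a k n) P = (b n : ℚ) * aeval (win a k n) Q) {r : ℕ}
    (G : MvPolynomial (Fin r) ℤ) {α : ℝ} (hα : 0 < α) {P' : (ℕ → ℚ) → Prop}
    (hP : ∀ A δ : ℝ, δ < 1 / 2 → DT (Qu A δ) (fun _ v => P' v)) :
    DT (fun T => T ⊆ Set.range a ∧ ∀ n₁, Banach G α (Rec a Q b n₁ T)) (fun _ v => P' v) := by
  obtain ⟨B, n₁, hB, h1, h2, h3⟩ := consecutive a hm N₀
  refine dt_sub (Φ := Ph k B m P Q) (𝒯' := fun T => (∀ x ∈ T, ∃ z : ℤ, x = z) ∧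
    Banach G α T) ?_ (dt_Ph k B m P Q) (dt_banach G hα hP)
  rintro T ⟨hT, hd⟩
  obtain ⟨h4, h5⟩ := ph_sub a P Q hB b h1 h2 h3 hPQ hT
  exact ⟨h4, banach_mono h5 (hd _)⟩

end Pool.Agent.H43R
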