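import Pool.Agent.H43R.Rcv
import Pool.Agent.H43R.Def

/-!
# Existential definitions from windows of P-recursive sequences
-/

set_option autoImplicit false

namespace Pool.Agent.H43R

open Filter Topology
open Pool.Agent.TH255.HC Pool.Agent.TH255.QI Pool.Agent.K9h58.QD

variable {𝒯 : Set ℚ → Prop}

/-- polynomial functions with rational coefficients -/
def QF (f : (ℕ → ℚ) → ℚ) : Prop := ∃ D : ℤ, D ≠ 0 ∧ PF (fun v => (D : ℚ) * f v)

lemma QF.of_pf {f : (ℕ → ℚ) → ℚ} (h : PF f) : QF f :=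
  ⟨1, one_ne_zero, by simpa using h⟩

lemma pf_congr {f g : (ℕ → ℚ) → ℚ} (h : PF f) (hfg : ∀ v, g v = f v) : PF g := by
  have : g = f := funext hfg
  rw [this]
  exact h

lemma QF.const (c : ℚ) : QF (fun _ => c) := by
  refine ⟨(c.den : ℤ), by exact_mod_cast c.den_nz, pf_congr (PF.int c.num) fun _ => ?_⟩
  rw [mul_comm]
  exact_mod_cast (Rat.mul_den_eq_num c)

lemma QF.add {f g : (ℕ → ℚ) → ℚ} (hf : QF f) (hg : QF g) : QF (fun v => f v + g v) := by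
  obtain ⟨D, hD, h⟩ := hf
  obtain ⟨E, hE, h'⟩ := hg
  refine ⟨D * E, mul_ne_zero hD hE,
    pf_congr (((PF.int E).mul h).add ((PF.int D).mul h')) fun v => ?_⟩
  push_cast
  ring

lemma QF.mul {f g : (ℕ → ℚ) → ℚ} (hf : QF f) (hg : QF g) : QF (fun v => f v * g v) := by
  obtain ⟨D, hD, h⟩ := hf
  obtain ⟨E, hE, h'⟩ := hg
  refine ⟨D * E, mul_ne_zero hD hE, pf_congr (h.mul h') fun v => ?_⟩
  push_cast
  ring

lemma QF.pow {f : (ℕ → ℚ) → ℚ} (hf : QF f) (n : ℕ) : QF (fun v => f v ^ n) := by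
  induction n with
  | zero => simpa using QF.const 1
  | succ n ih =>
    have h1 := ih.mul hf
    simpa only [pow_succ] using h1

lemma QF.sum {ι : Type*} (s : Finset ι) {f : ι → (ℕ → ℚ) → ℚ} (h : ∀ i, QF (f i)) :
    QF (fun v => ∑ i ∈ s, f i v) := by
  classical
  induction s using Finset.induction_on with
  | empty => simpa using QF.const 0
  | insert i s hi ih =>
    simp only [Finset.sum_insert hi]
    exact (h i).add ih

lemma QF.poly (p : Polynomial ℚ) {f : (ℕ → ℚ) → ℚ} (hf : QF f) : QF (fun v => p.eval (f v)) := by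
  simp only [Polynomial.eval_eq_sum_range]
  exact QF.sum _ fun i => (QF.const _).mul (hf.pow i)

lemma QF.dt {f : (ℕ → ℚ) → ℚ} (hf : QF f) : DT 𝒯 (fun _ v => f v = 0) := by
  obtain ⟨D, hD, h⟩ := hf
  refine (DT.eq h PF.zero).congr fun _ _ v => ?_
  have hD' : (D : ℚ) ≠ 0 := by exact_mod_cast hD
  rw [mul_eq_zero]
  exact ⟨fun h => Or.inr h, fun h => h.resolve_left hD'⟩

/-- the numbers recovered from windows of consecutive elements of `T` -/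
def Ps (k J : ℕ) (p : ℕ → Polynomial ℚ) (B m : ℚ) (T : Set ℚ) : Set ℚ :=
  {x | ∃ u : ℕ → ℚ, (∀ i ∈ List.range (k + J + 1), u i ∈ T ∧ B ^ 2 * 1 < u i ^ 2) ∧
    (∀ i ∈ List.range (k + J), u i ^ 2 < u (i + 1) ^ 2 ∧ u (i + 1) ^ 2 < m ^ 4 * u i ^ 2) ∧
    ∀ j ∈ List.range (J + 1),
      ∑ i ∈ Finset.range (k + 1), (p i).eval (x + j) * u (j + i) = 0}

theorem dt_Ps (k J : ℕ) (p : ℕ → Polynomial ℚ) (B m : ℚ) :
    DT 𝒯 (fun T v => v 0 ∈ Ps k J p B m T) := by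
  refine DT.exs (P := fun T v u =>
    (∀ i ∈ List.range (k + J + 1), u i ∈ T ∧ B ^ 2 * 1 < u i ^ 2) ∧
    (∀ i ∈ List.range (k + J), u i ^ 2 < u (i + 1) ^ 2 ∧ u (i + 1) ^ 2 < m ^ 4 * u i ^ 2) ∧
    ∀ j ∈ List.range (J + 1),
      ∑ i ∈ Finset.range (k + 1), (p i).eval (v 0 + j) * u (j + i) = 0) ?_
  refine DT.and ?_ (DT.and ?_ ?_)
  · exact DT.list _ fun i => (DT.mem (PF.od i)).and (dt_rat_lt (B ^ 2) PF.one ((PF.od i).pow 2))
  · exact DT.list _ fun i => (dt_lt ((PF.od i).pow 2) ((PF.od (i + 1)).pow 2)).and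
      (dt_lt_rat (m ^ 4) ((PF.od i).pow 2) ((PF.od (i + 1)).pow 2))
  · refine DT.list _ fun j => QF.dt (QF.sum _ fun i => ?_)
    exact (QF.poly (p i) ((QF.of_pf (PF.var (2 * 0))).add (QF.const j))).mul
      (QF.of_pf (PF.od (j + i)))

theorem ps_sub {a : ℕ → ℚ} {k J N : ℕ} {p : ℕ → Polynomial ℚ} {B m : ℚ} {n₁ : ℕ} (hB : 0 ≤ B)
    (h1 : ∀ n, n₁ ≤ n → B < |a n| ∧ a n ^ 2 < a (n + 1) ^ 2 ∧ a (n + 1) ^ 2 < m ^ 4 * a n ^ 2)
    (h2 : ∀ i, B < |a i| → N ≤ i)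
    (h3 : ∀ i j, B < |a i| → B < |a j| → a i ^ 2 < a j ^ 2 → a j ^ 2 < m ^ 4 * a i ^ 2 →
        j = i + 1)
    (hp : ∀ n, N ≤ n → ∀ x : ℚ,
      (∀ j, j ≤ J → ∑ i ∈ Finset.range (k + 1), (p i).eval (x + j) * a (n + j + i) = 0) ↔
        x = n)
    {T : Set ℚ} (hT : T ⊆ Set.range a) :
    (∀ x ∈ Ps k J p B m T, ∃ z : ℤ, x = z) ∧
      ∀ n, n₁ ≤ n → N ≤ n → (∀ i, i ≤ k + J → a (n + i) ∈ T) → (n : ℚ) ∈ Ps k J p B m T := by
  constructor
  · rintro x ⟨u, hu1, hu2, hu3⟩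
    obtain ⟨hn0, hn'⟩ := hu1 0 (by simp)
    obtain ⟨n, hn⟩ := hT hn0
    have key : ∀ i, i ≤ k + J → u i = a (n + i) := by
      intro i
      induction i with
      | zero => exact fun _ => hn.symm
      | succ i ih =>
        intro hi
        have e1 := ih (by omega)
        obtain ⟨hm0, hm'⟩ := hu1 (i + 1) (by rw [List.mem_range]; omega)
        obtain ⟨j, hm⟩ := hT hm0
        obtain ⟨-, hi'⟩ := hu1 i (by rw [List.mem_range]; omega)
        obtain ⟨e2, e3⟩ := hu2 i (by rw [List.mem_range]; omega)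
        rw [← hm] at hm' e2 e3 ⊢
        rw [e1] at hi' e2 e3
        have e4 := h3 (n + i) j (abs_of_sq hB hi') (abs_of_sq hB hm') e2 e3
        rw [e4]
        rfl
    have hN : N ≤ n := h2 n (by rw [hn]; exact abs_of_sq hB hn')
    have hx : x = n := by
      refine (hp n hN x).1 fun j hj => ?_
      rw [← hu3 j (by rw [List.mem_range]; omega)]
      refine Finset.sum_congr rfl fun i hi => ?_
      rw [Finset.mem_range] at hi
      rw [key (j + i) (by omega), add_assoc]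
    exact ⟨n, by rw [hx]; simp⟩
  · intro n hn hN hw
    refine ⟨fun i => a (n + i), fun i hi => ⟨?_, ?_⟩, fun i _ => ?_, fun j hj => ?_⟩
    · exact hw i (by have := List.mem_range.1 hi; omega)
    · have e1 := (h1 (n + i) (by omega)).1
      rw [mul_one]
      exact sq_lt_sq.2 (by rwa [abs_of_nonneg hB])
    · exact (h1 (n + i) (by omega)).2
    · have e1 := (hp n hN n).2 rfl j (by have := List.mem_range.1 hj; omega)
      rw [← e1]
      refine Finset.sum_congr rfl fun i _ => ?_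
      rw [add_assoc]

/-- the upper Banach density of `S` is at least `θ` -/
def Dns (S : Set ℕ) (θ : ℝ) : Prop :=
  ∀ l₀ : ℕ, ∃ l s : ℕ, l₀ ≤ l ∧ θ * l ≤ ({n : ℕ | s ≤ n ∧ n < s + l ∧ n ∈ S}.ncard : ℝ)

lemma banach_of_dns {k J N : ℕ} {S : Set ℕ} {α : ℝ} {n₁ : ℕ} {X : Set ℚ} (hα : 0 < α)
    (hS : Dns {n : ℕ | ∀ i, i ≤ k + J → n + i ∈ S} α)
    (hX : ∀ n, n₁ ≤ n → N ≤ n → (∀ i, i ≤ k + J → n + i ∈ S) → (n : ℚ) ∈ X) :
    Banach (MvPolynomial.X 0 : MvPolynomial (Fin 1) ℤ) (α / 2) X := by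
  intro l₀
  set N' := max n₁ N with hN'
  obtain ⟨l, s, hl, hls⟩ := hS (max l₀ (⌈2 * N' / α⌉₊))
  refine ⟨l, s, (le_max_left _ _).trans hl, ?_⟩
  set W : Set ℕ := {n : ℕ | s ≤ n ∧ n < s + l ∧ n ∈ {n : ℕ | ∀ i, i ≤ k + J → n + i ∈ S}} with hW
  set R : Set ℤ := {m' : ℤ | (s : ℤ) ≤ m' ∧ m' < s + l ∧ ∃ t : Fin 1 → ℚ,
    (∀ i, t i ∈ X) ∧
    MvPolynomial.aeval t (MvPolynomial.X 0 : MvPolynomial (Fin 1) ℤ) = (m' : ℚ)} with hR
  have hRf : R.Finite := (Set.finite_Ico (s : ℤ) (s + l)).subset fun m hm => ⟨hm.1, hm.2.1⟩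
  have hWf : W.Finite := (Set.finite_Ico s (s + l)).subset fun m hm => ⟨hm.1, hm.2.1⟩
  have h7 : (fun n : ℕ => (n : ℤ)) '' (W \ Set.Iio N') ⊆ R := by
    rintro _ ⟨n, ⟨⟨hn1, hn2, hn5⟩, hn3⟩, rfl⟩
    have hn3' : N' ≤ n := not_lt.1 hn3
    have hn1' : (s : ℤ) ≤ (n : ℤ) := by exact_mod_cast hn1
    have hn2' : (n : ℤ) < (s : ℤ) + l := by exact_mod_cast hn2
    refine ⟨hn1', hn2', fun _ => (n : ℚ), fun _ => ?_, ?_⟩
    · exact hX n ((le_max_left _ _).trans hn3') ((le_max_right _ _).trans hn3') hn5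
    · rw [MvPolynomial.aeval_X]
      simp
  have h8 : (W \ Set.Iio N').ncard ≤ R.ncard := by
    rw [← Set.ncard_image_of_injective _ (f := fun n : ℕ => (n : ℤ)) Nat.cast_injective]
    exact Set.ncard_le_ncard h7 hRf
  have h9 : W.ncard ≤ (W \ Set.Iio N').ncard + N' := by
    have e1 : W ⊆ (W \ Set.Iio N') ∪ Set.Iio N' := by
      intro n hn
      by_cases h : n < N'
      · exact Or.inr h
      · exact Or.inl ⟨hn, h⟩
    have e2 : (Set.Iio N').Finite := Set.finite_Iio N'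
    refine (Set.ncard_le_ncard e1 ((hWf.subset Set.sdiff_subset).union e2)).trans
      ((Set.ncard_union_le _ _).trans ?_)
    rw [← Finset.coe_Iio N', Set.ncard_coe_finset, Nat.card_Iio]
  have h10 : (W.ncard : ℝ) ≤ R.ncard + N' := by
    exact_mod_cast h9.trans (Nat.add_le_add_right h8 N')
  have h11 : (N' : ℝ) ≤ α / 2 * l := by
    have e1 : 2 * N' / α ≤ (l : ℝ) := (Nat.le_ceil _).trans
      (by exact_mod_cast (le_max_right _ _).trans hl)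
    rw [div_le_iff₀ hα] at e1
    linarith
  linarith

/-- the main definability theorem -/
theorem dt_hol {a : ℕ → ℚ} (ha : PRec a)
    (hns : ∀ g : Polynomial ℚ, Squarefree g → ¬ EvAnn g a) {m : ℚ} (hm : Grow a m) :
    ∃ K : ℕ, ∀ {α : ℝ}, 0 < α → ∀ {P' : (ℕ → ℚ) → Prop},
      (∀ A δ : ℝ, δ < 1 / 2 → DT (Qu A δ) (fun _ v => P' v)) →
      DT (fun T => ∃ S : Set ℕ, Dns {n : ℕ | ∀ i, i ≤ K → n + i ∈ S} α ∧ T = a '' S)
        (fun _ v => P' v) := by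
  obtain ⟨D, hD⟩ := rel_of_prec ha hns
  obtain ⟨k, J, N, p, hp⟩ := recoverH hD
  obtain ⟨B, n₁, hB, h1, h2, h3⟩ := consecutive a hm N
  refine ⟨k + J, fun {α} hα {P'} hP => ?_⟩
  refine dt_sub (Φ := Ps k J p B m) (𝒯' := fun T => (∀ x ∈ T, ∃ z : ℤ, x = z) ∧
    Banach (MvPolynomial.X 0 : MvPolynomial (Fin 1) ℤ) (α / 2) T) ?_
    (dt_Ps k J p B m) (dt_banach _ (by positivity) hP)
  rintro T ⟨S, hS, rfl⟩
  obtain ⟨h4, h5⟩ := ps_sub hB h1 h2 h3 hp (Set.image_subset_range a S)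
  exact ⟨h4, banach_of_dns hα hS fun n hn hN hw =>
    h5 n hn hN fun i hi => ⟨n + i, hw i hi, rfl⟩⟩

end Pool.Agent.H43R
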