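import Pool.Agent.H43R.RegDef

/-!
# Signed sums of the numbers `(q k + b) ^ (-s)`
-/

set_option autoImplicit false
set_option maxHeartbeats 1000000

namespace Pool.Agent.H43R.Hs

open Filter Topology
open Pool.Agent.TH255.HC Pool.Agent.TH255.QI Pool.Agent.K9h58.QD

/-- the sums of the numbers `ε / (q k + b) ^ s`, `1 ≤ k ≤ n`, with signs `ε` -/
def hsum (ε : ℕ → ℚ) (q b s : ℕ) (n : ℕ) : ℚ :=
  ∑ k ∈ Finset.range n, ε k / ((q : ℚ) * (k + 1) + b) ^ s

variable {q b s : ℕ} {ε : ℕ → ℚ}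

lemma hsum_succ (n : ℕ) :
    hsum ε q b s (n + 1) = hsum ε q b s n + ε n / ((q : ℚ) * (n + 1) + b) ^ s := by
  unfold hsum
  rw [Finset.sum_range_succ]

/-- the denominators -/
def hc (q b k : ℕ) : ℕ := q * (k + 1) + b

lemma hc_pos (hq : Odd q) (k : ℕ) : 0 < hc q b k := by
  unfold hc
  have : 0 < q := hq.pos
  positivity

lemma hsum_succ' (n : ℕ) :
    hsum ε q b s (n + 1) = hsum ε q b s n + ε n / (hc q b n : ℚ) ^ s := by
  rw [hsum_succ]
  unfold hc
  push_cast
  rfl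

lemma eps_ne (hε : ∀ k, ε k = 1 ∨ ε k = -1) (k : ℕ) : ε k ≠ 0 := by
  rcases hε k with h | h <;> rw [h] <;> norm_num

lemma eps_sq (hε : ∀ k, ε k = 1 ∨ ε k = -1) (k : ℕ) : ε k ^ 2 = 1 := by
  rcases hε k with h | h <;> rw [h] <;> norm_num

lemma term_val (hε : ∀ k, ε k = 1 ∨ ε k = -1) (k : ℕ) :
    padicValRat 2 (ε k / (hc q b k : ℚ) ^ s) = -((s * padicValNat 2 (hc q b k) : ℕ) : ℤ) := by
  have h1 : padicValRat 2 (((hc q b k : ℚ) ^ s)⁻¹) =
      -((s * padicValNat 2 (hc q b k) : ℕ) : ℤ) := by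
    rw [padicValRat.inv, padicValRat.pow, padicValRat.of_nat]
    push_cast
    rfl
  rcases hε k with h | h
  · rw [h, one_div, h1]
  · rw [h, neg_div, padicValRat.neg, one_div, h1]

/-- the 2-adic valuation of a sum over an interval -/
lemma hsum_val (hq : Odd q) (hs : 0 < s) (hε : ∀ k, ε k = 1 ∨ ε k = -1) {m n : ℕ} (h : m < n) :
    hsum ε q b s n - hsum ε q b s m ≠ 0 ∧
    ∃ H : ℕ, (∀ k, m ≤ k → k < n → padicValNat 2 (hc q b k) ≤ H) ∧
      (∃ j, m ≤ j ∧ j < n ∧ padicValNat 2 (hc q b j) = H) ∧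
      padicValRat 2 (hsum ε q b s n - hsum ε q b s m) = -((s * H : ℕ) : ℤ) := by
  have hc0 : ∀ k, (0 : ℚ) < hc q b k := fun k => by exact_mod_cast hc_pos hq k
  have hc1 : ∀ k, ε k / (hc q b k : ℚ) ^ s ≠ 0 := fun k =>
    div_ne_zero (eps_ne hε k) (pow_ne_zero _ (hc0 k).ne')
  induction n, h using Nat.le_induction with
  | base =>
    rw [hsum_succ', add_sub_cancel_left]
    refine ⟨hc1 m, padicValNat 2 (hc q b m), fun k h1 h2 => ?_,
      ⟨m, le_rfl, Nat.lt_succ_self m, rfl⟩, term_val hε m⟩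
    have : k = m := by omega
    rw [this]
  | succ n hn ih =>
    obtain ⟨hD, H, h1, ⟨j, hj1, hj2, hj3⟩, h2⟩ := ih
    have hne : padicValNat 2 (hc q b n) ≠ H := by
      intro heq
      -- two odd multiples of `2 ^ H`
      have hcj := hc_pos (b := b) hq j
      have hcn := hc_pos (b := b) hq n
      have hd1 : ¬ 2 ^ (H + 1) ∣ hc q b j := by
        rw [padicValNat_dvd_iff_le hcj.ne']
        omega
      have hd2 : ¬ 2 ^ (H + 1) ∣ hc q b n := by
        rw [padicValNat_dvd_iff_le hcn.ne']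
        omega
      have hd3 : 2 ^ H ∣ hc q b j := by
        rw [padicValNat_dvd_iff_le hcj.ne']
        omega
      have hd4 : 2 ^ H ∣ hc q b n := by
        rw [padicValNat_dvd_iff_le hcn.ne']
        omega
      obtain ⟨c, hc'⟩ := hd3
      obtain ⟨t, ht⟩ := hd4
      have hso : Odd c := by
        rw [← Nat.not_even_iff_odd]
        rintro ⟨r, hr⟩
        apply hd1
        rw [hc', hr, pow_succ]
        exact ⟨r, by ring⟩
      have hto : Odd t := by
        rw [← Nat.not_even_iff_odd]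
        rintro ⟨r, hr⟩
        apply hd2
        rw [ht, hr, pow_succ]
        exact ⟨r, by ring⟩
      -- the difference
      have hdiff : hc q b n = hc q b j + q * (n - j) := by
        unfold hc
        obtain ⟨d, rfl⟩ : ∃ d, n = j + d := ⟨n - j, by omega⟩
        rw [Nat.add_sub_cancel_left]
        ring
      have hst : c ≤ t := by
        have : 2 ^ H * c ≤ 2 ^ H * t := by
          rw [← hc', ← ht, hdiff]
          exact Nat.le_add_right _ _
        exact Nat.le_of_mul_le_mul_left this (by positivity)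
      have hev : Even (t - c) := Nat.Odd.sub_odd hto hso
      obtain ⟨r, hr⟩ := hev
      have hdvd : 2 ^ (H + 1) ∣ q * (n - j) := by
        have h5 : q * (n - j) = 2 ^ H * (t - c) := by
          have e1 : 2 ^ H * t = 2 ^ H * c + q * (n - j) := by rw [← ht, ← hc', hdiff]
          have e2 : 2 ^ H * (t - c) = 2 ^ H * t - 2 ^ H * c := Nat.mul_sub _ _ _
          rw [e2, e1, Nat.add_sub_cancel_left]
        rw [h5, hr, pow_succ]
        exact ⟨r, by ring⟩
      have hcop : Nat.Coprime (2 ^ (H + 1)) q :=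
        Nat.Coprime.pow_left _ (Nat.coprime_two_left.2 hq)
      have hdvd' : 2 ^ (H + 1) ∣ n - j := hcop.dvd_of_dvd_mul_left hdvd
      have hle : 2 ^ (H + 1) ≤ n - j := Nat.le_of_dvd (by omega) hdvd'
      have hH : 2 ^ H < 2 ^ (H + 1) := Nat.pow_lt_pow_right (by norm_num) (by omega)
      have h6 := h1 (j + 2 ^ H) (by omega) (by omega)
      have h7 : hc q b (j + 2 ^ H) = 2 ^ H * (c + q) := by
        rw [Nat.mul_add, ← hc']
        unfold hc
        ring
      have h8 : 2 ^ (H + 1) ∣ hc q b (j + 2 ^ H) := by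
        obtain ⟨r, hr⟩ := hso.add_odd hq
        rw [h7, hr, pow_succ]
        exact ⟨r, by ring⟩
      rw [padicValNat_dvd_iff_le (hc_pos hq _).ne'] at h8
      omega
    have hadd : hsum ε q b s (n + 1) - hsum ε q b s m =
        (hsum ε q b s n - hsum ε q b s m) + ε n / (hc q b n : ℚ) ^ s := by
      rw [hsum_succ']
      ring
    have hvne : padicValRat 2 (hsum ε q b s n - hsum ε q b s m) ≠
        padicValRat 2 (ε n / (hc q b n : ℚ) ^ s) := by
      rw [h2, term_val hε]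
      intro h
      apply hne
      have h3 : s * H = s * padicValNat 2 (hc q b n) := by omega
      exact (Nat.eq_of_mul_eq_mul_left hs h3).symm
    have hD' : (hsum ε q b s n - hsum ε q b s m) + ε n / (hc q b n : ℚ) ^ s ≠ 0 := by
      intro h0
      apply hvne
      rw [eq_neg_of_add_eq_zero_left h0, padicValRat.neg]
    have hmin : padicValRat 2 (hsum ε q b s (n + 1) - hsum ε q b s m) =
        min (-((s * H : ℕ) : ℤ)) (-((s * padicValNat 2 (hc q b n) : ℕ) : ℤ)) := by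
      rw [hadd, padicValRat.add_eq_min hD' hD (hc1 n) hvne, h2, term_val hε]
    refine ⟨by rw [hadd]; exact hD', max H (padicValNat 2 (hc q b n)), fun k hk1 hk2 => ?_,
      ?_, ?_⟩
    · rcases Nat.lt_or_ge k n with h | h
      · exact (h1 k hk1 h).trans (le_max_left _ _)
      · have : k = n := by omega
        rw [this]
        exact le_max_right _ _
    · rcases le_total H (padicValNat 2 (hc q b n)) with h | h
      · exact ⟨n, by omega, Nat.lt_succ_self n, (max_eq_right h).symm⟩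
      · exact ⟨j, hj1, by omega, by rw [hj3, max_eq_left h]⟩
    · rw [hmin, min_neg_neg, ← Nat.cast_max, Nat.mul_max_mul_left]

lemma hsum_val_neg (hq : Odd q) (hs : 0 < s) (hε : ∀ k, ε k = 1 ∨ ε k = -1) {m n : ℕ}
    (h : m + 2 ≤ n) : padicValRat 2 (hsum ε q b s n - hsum ε q b s m) < 0 := by
  obtain ⟨-, H, h1, -, h2⟩ := hsum_val (b := b) hq hs hε (show m < n by omega)
  have h3 : 1 ≤ H := by
    have h4 := h1 m le_rfl (by omega)
    have h5 := h1 (m + 1) (by omega) (by omega)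
    rcases Nat.even_or_odd (hc q b m) with h6 | h6
    · have : 2 ^ 1 ∣ hc q b m := by simpa using h6.two_dvd
      rw [padicValNat_dvd_iff_le (hc_pos hq _).ne'] at this
      omega
    · have h7 : hc q b (m + 1) = hc q b m + q := by
        unfold hc
        ring
      have : 2 ^ 1 ∣ hc q b (m + 1) := by
        rw [h7]
        simpa using (h6.add_odd hq).two_dvd
      rw [padicValNat_dvd_iff_le (hc_pos hq _).ne'] at this
      omega
  have h4 : 0 < s * H := Nat.mul_pos hs h3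
  rw [h2]
  omega

/-- two elements at the distance `1 / z ^ s` are neighbours or `z` is even -/
lemma hsum_step (hq : Odd q) (hs : 0 < s) (hε : ∀ k, ε k = 1 ∨ ε k = -1) {i j : ℕ} {z : ℚ}
    (hz : 0 < z) (h : ((hsum ε q b s j - hsum ε q b s i) * z ^ s) ^ 2 = 1) :
    (∃ k : ℕ, z = (q : ℚ) * (k + 1) + b) ∨ 0 < padicValRat 2 z := by
  -- we may assume `i < j`
  have key : ∀ {i j : ℕ}, i < j → ((hsum ε q b s j - hsum ε q b s i) * z ^ s) ^ 2 = 1 →
      (∃ k : ℕ, z = (q : ℚ) * (k + 1) + b) ∨ 0 < padicValRat 2 z := by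
    intro i j hij h
    rcases Nat.lt_or_ge j (i + 2) with h3 | h3
    · left
      have hj : j = i + 1 := by omega
      rw [hj, hsum_succ, add_sub_cancel_left] at h
      have hq0 : (0 : ℚ) < q := by exact_mod_cast hq.pos
      have h4 : (0 : ℚ) < (q : ℚ) * (i + 1) + b := by positivity
      refine ⟨i, ?_⟩
      rw [mul_pow, div_pow, eps_sq hε, one_div, inv_mul_eq_one₀ (by positivity)] at h
      have h5 := (sq_eq_sq₀ (pow_pos h4 s).le (pow_pos hz s).le).1 h
      exact ((pow_left_inj₀ h4.le hz.le hs.ne').1 h5).symm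
    · right
      have h4 := hsum_val_neg (b := b) hq hs hε h3
      have h5 := (hsum_val (b := b) hq hs hε hij).1
      have h6 := padicValRat.mul (p := 2) h5 (pow_ne_zero s hz.ne')
      have h7 : padicValRat 2 (((hsum ε q b s j - hsum ε q b s i) * z ^ s) ^ 2) = 0 := by
        rw [h, padicValRat.one]
      rw [padicValRat.pow, h6, padicValRat.pow] at h7
      have h8 : (2 : ℤ) * (padicValRat 2 (hsum ε q b s j - hsum ε q b s i) +
          (s : ℤ) * padicValRat 2 z) = 0 := by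
        exact_mod_cast h7
      have h9 : 0 < (s : ℤ) * padicValRat 2 z := by omega
      exact pos_of_mul_pos_right h9 (by positivity)
  rcases lt_trichotomy i j with hij | hij | hij
  · exact key hij h
  · rw [hij, sub_self, zero_mul] at h
    norm_num at h
  · refine key hij ?_
    rw [← h]
    ring

/-- the windows of three sums -/
theorem hsum_sound (hq : Odd q) (hs : 0 < s) (hε : ∀ k, ε k = 1 ∨ ε k = -1) {m n l : ℕ} {x : ℚ}
    (hx : 0 < (q : ℚ) * (x + 1) + b)
    (h1 : ((hsum ε q b s n - hsum ε q b s m) * ((q : ℚ) * (x + 1) + b) ^ s) ^ 2 = 1)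
    (h2 : ((hsum ε q b s l - hsum ε q b s n) * ((q : ℚ) * (x + 2) + b) ^ s) ^ 2 = 1) :
    ∃ z : ℤ, x = z := by
  have hq0 : (0 : ℚ) < q := by exact_mod_cast hq.pos
  have hx2 : 0 < (q : ℚ) * (x + 2) + b := by nlinarith
  rcases hsum_step hq hs hε hx h1 with ⟨k, hk⟩ | h3
  · refine ⟨k, ?_⟩
    have h5 : (q : ℚ) * (x + 1) = q * (k + 1) := by linarith
    have h6 := mul_left_cancel₀ hq0.ne' h5
    push_cast
    linarith
  · rcases hsum_step hq hs hε hx2 h2 with ⟨k, hk⟩ | h4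
    · refine ⟨k - 1, ?_⟩
      have h5 : (q : ℚ) * (x + 2) = q * (k + 1) := by linarith
      have h6 := mul_left_cancel₀ hq0.ne' h5
      push_cast
      linarith
    · exfalso
      have h7 : padicValRat 2 (q : ℚ) = 0 := by
        rw [padicValRat.of_nat]
        exact_mod_cast padicValNat.eq_zero_of_not_dvd (by
          intro h
          exact (Nat.not_even_iff_odd.2 hq) (even_iff_two_dvd.2 h))
      have h8 : ((q : ℚ) * (x + 2) + b) + (-((q : ℚ) * (x + 1) + b)) = q := by ring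
      have h9 := padicValRat.min_le_padicValRat_add (p := 2) (q := (q : ℚ) * (x + 2) + b)
        (r := -((q : ℚ) * (x + 1) + b)) (by
        rw [h8]; exact hq0.ne')
      rw [h8, h7, padicValRat.neg] at h9
      have := lt_min h4 h3
      omega

/-- the numbers recovered from windows -/
def Hh (q b s : ℕ) (T : Set ℚ) : Set ℚ :=
  {x | ∃ u : ℕ → ℚ, (∀ i ∈ List.range 3, u i ∈ T) ∧ 0 < (q : ℚ) * (x + 1) + b ∧
    ((u 1 + (-1) * u 0) * ((q : ℚ) * (x + 1) + b) ^ s) ^ 2 + (-1) = 0 ∧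
    ((u 2 + (-1) * u 1) * ((q : ℚ) * (x + 2) + b) ^ s) ^ 2 + (-1) = 0}

theorem dt_Hh {𝒯 : Set ℚ → Prop} (q b s : ℕ) : DT 𝒯 (fun T v => v 0 ∈ Hh q b s T) := by
  refine DT.exs (P := fun T v u => (∀ i ∈ List.range 3, u i ∈ T) ∧
    0 < (q : ℚ) * (v 0 + 1) + b ∧
    ((u 1 + (-1) * u 0) * ((q : ℚ) * (v 0 + 1) + b) ^ s) ^ 2 + (-1) = 0 ∧
    ((u 2 + (-1) * u 1) * ((q : ℚ) * (v 0 + 2) + b) ^ s) ^ 2 + (-1) = 0) ?_
  have hx : ∀ c : ℚ, QF (fun w : ℕ → ℚ => (q : ℚ) * (w (2 * 0) + c) + b) := fun c =>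
    ((QF.const q).mul ((QF.of_pf (PF.var (2 * 0))).add (QF.const c))).add (QF.const b)
  refine DT.and ?_ (DT.and ?_ (DT.and ?_ ?_))
  · exact DT.list _ fun i => DT.mem (PF.od i)
  · exact QF.pos (hx 1)
  · exact QF.dt (((((QF.of_pf (PF.od 1)).add ((QF.const (-1)).mul (QF.of_pf (PF.od 0)))).mul
      ((hx 1).pow s)).pow 2).add (QF.const (-1)))
  · exact QF.dt (((((QF.of_pf (PF.od 2)).add ((QF.const (-1)).mul (QF.of_pf (PF.od 1)))).mul
      ((hx 2).pow s)).pow 2).add (QF.const (-1)))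

theorem dt_harm (hq : Odd q) (hs : 0 < s) {α : ℝ} (hα : 0 < α) {P' : (ℕ → ℚ) → Prop}
    (hP' : ∀ A δ : ℝ, δ < 1 / 2 → DT (Qu A δ) (fun _ v => P' v)) :
    DT (fun T => ∃ ε : ℕ → ℚ, (∀ k, ε k = 1 ∨ ε k = -1) ∧
      ∃ S : Set ℕ, Dns {n : ℕ | ∀ i, i ≤ 2 → n + i ∈ S} α ∧ T = hsum ε q b s '' S)
      (fun _ v => P' v) := by
  refine dt_sub (Φ := Hh q b s) (𝒯' := fun T => (∀ x ∈ T, ∃ z : ℤ, x = z) ∧
    Banach (MvPolynomial.X 0 : MvPolynomial (Fin 1) ℤ) (α / 2) T) ?_
    (dt_Hh q b s) (dt_banach _ (by positivity) hP')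
  have hq0 : (0 : ℚ) < q := by exact_mod_cast hq.pos
  rintro T ⟨ε, hε, S, hS, rfl⟩
  have hpos : ∀ m : ℕ, 1 ≤ m → ∀ n : ℕ, (0 : ℚ) < (q : ℚ) * (n + m) + b := by
    intro m hm n
    have : (1 : ℚ) ≤ m := by exact_mod_cast hm
    positivity
  refine ⟨?_, ?_⟩
  · rintro x ⟨u, hu, hx, h1, h2⟩
    obtain ⟨m, -, hm⟩ := hu 0 (by simp)
    obtain ⟨n, -, hn⟩ := hu 1 (by simp)
    obtain ⟨l, -, hl⟩ := hu 2 (by simp)
    refine hsum_sound (b := b) (m := m) (n := n) (l := l) hq hs hε hx ?_ ?_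
    · rw [hm, hn, sub_eq_add_neg, ← neg_one_mul]
      linarith
    · rw [hl, hn, sub_eq_add_neg, ← neg_one_mul]
      linarith
  · refine banach_of_dns (k := 2) (J := 0) (N := 0) (n₁ := 0) hα hS fun n _ _ hw => ?_
    have hp1 := hpos 1 le_rfl n
    have hp2 := hpos 2 (by norm_num) n
    push_cast at hp1 hp2
    have hstep : ∀ y : ℚ, 0 < y → ∀ k : ℕ, ∀ u : ℚ,
        ((u + ε k / y ^ s + (-1) * u) * y ^ s) ^ 2 + (-1) = 0 := by
      intro y hy k u
      have h5 : (u + ε k / y ^ s + (-1) * u) * y ^ s = ε k := by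
        have : y ^ s ≠ 0 := (pow_pos hy s).ne'
        field_simp
        ring
      rw [h5, eps_sq hε]
      norm_num
    refine ⟨fun i => hsum ε q b s (n + i), fun i hi => ?_, hp1, ?_, ?_⟩
    · exact ⟨n + i, hw i (by have := List.mem_range.1 hi; omega), rfl⟩
    · show ((hsum ε q b s (n + 1) + (-1) * hsum ε q b s (n + 0)) *
        ((q : ℚ) * (n + 1) + b) ^ s) ^ 2 + (-1) = 0
      rw [add_zero, hsum_succ]
      exact hstep _ hp1 n _
    · have h5 : hsum ε q b s (n + 2) =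
          hsum ε q b s (n + 1) + ε (n + 1) / ((q : ℚ) * (n + 2) + b) ^ s := by
        rw [show n + 2 = (n + 1) + 1 from rfl, hsum_succ]
        push_cast
        ring
      show ((hsum ε q b s (n + 2) + (-1) * hsum ε q b s (n + 1)) *
        ((q : ℚ) * (n + 2) + b) ^ s) ^ 2 + (-1) = 0
      rw [h5]
      exact hstep _ hp2 (n + 1) _

end Pool.Agent.H43R.Hs
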