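import Pool.Agent.H43R.Lin

/-!
# Recovering the index from windows of a P-recursive sequence
-/

set_option autoImplicit false

namespace Pool.Agent.H43R

open Polynomial Filter

/-- an operator with polynomial coefficients -/
noncomputable def op (k : ℕ) (p : ℕ → ℚ[X]) (a : ℕ → ℚ) (n : ℕ) : ℚ :=
  ∑ i ∈ Finset.range (k + 1), (p i).eval (n : ℚ) * a (n + i)

/-- the coefficient of the highest power of the index -/
noncomputable def top (k : ℕ) (p : ℕ → ℚ[X]) (D : ℕ) (a : ℕ → ℚ) (n : ℕ) : ℚ :=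
  ∑ i ∈ Finset.range (k + 1), (p i).coeff D * a (n + i)

/-- a relation of degree `D` in the index -/
def Rel (a : ℕ → ℚ) (D : ℕ) : Prop :=
  ∃ (k : ℕ) (p : ℕ → ℚ[X]), (∀ i, (p i).natDegree ≤ D) ∧ (∀ᶠ n in atTop, op k p a n = 0) ∧
    ¬ ∀ᶠ n in atTop, top k p D a n = 0

/-- the derivatives of the relation -/
noncomputable def gg (k : ℕ) (p : ℕ → ℚ[X]) (a : ℕ → ℚ) (e n : ℕ) : ℚ :=
  op k (fun i => hasseDeriv e (p i)) a n

lemma taylor_op {k D : ℕ} {p : ℕ → ℚ[X]} (hp : ∀ i, (p i).natDegree ≤ D) (a : ℕ → ℚ) (n : ℕ)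
    (y : ℚ) : ∑ i ∈ Finset.range (k + 1), (p i).eval ((n : ℚ) + y) * a (n + i) =
      ∑ e ∈ Finset.range (D + 1), y ^ e * gg k p a e n := by
  unfold gg op
  have h1 : ∀ i, (p i).eval ((n : ℚ) + y) =
      ∑ e ∈ Finset.range (D + 1), y ^ e * (hasseDeriv e (p i)).eval (n : ℚ) := by
    intro i
    rw [add_comm, ← taylor_eval, eval_eq_sum_range' (n := D + 1)]
    · refine Finset.sum_congr rfl fun e _ => ?_
      rw [taylor_coeff, mul_comm]
    · rw [natDegree_taylor]
      have := hp i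
      omega
  calc ∑ i ∈ Finset.range (k + 1), (p i).eval ((n : ℚ) + y) * a (n + i)
      = ∑ i ∈ Finset.range (k + 1), ∑ e ∈ Finset.range (D + 1),
          y ^ e * ((hasseDeriv e (p i)).eval (n : ℚ) * a (n + i)) := by
        refine Finset.sum_congr rfl fun i _ => ?_
        rw [h1 i, Finset.sum_mul]
        refine Finset.sum_congr rfl fun e _ => ?_
        ring
    _ = ∑ e ∈ Finset.range (D + 1), ∑ i ∈ Finset.range (k + 1),
          y ^ e * ((hasseDeriv e (p i)).eval (n : ℚ) * a (n + i)) := Finset.sum_comm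
    _ = _ := by
        refine Finset.sum_congr rfl fun e _ => ?_
        rw [Finset.mul_sum]

/-- a relation of minimal degree has independent derivatives -/
lemma indep {a : ℕ → ℚ} {D k : ℕ} {p : ℕ → ℚ[X]} (hmin : ∀ D', D' < D → ¬ Rel a D')
    (hp : ∀ i, (p i).natDegree ≤ D) (htop : ¬ ∀ᶠ n in atTop, top k p D a n = 0) (γ : ℕ → ℚ)
    (hγ : ∀ᶠ n in atTop, ∑ e ∈ Finset.range D, γ e * gg k p a (e + 1) n = 0) :
    ∀ e, e < D → γ e = 0 := by
  classical
  by_contra hcon
  push Not at hcon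
  have hex : ∃ e, e < D ∧ γ e ≠ 0 := hcon
  obtain ⟨he0, hγ0⟩ := Nat.find_spec hex
  have hlt : ∀ e, e < Nat.find hex → γ e = 0 := by
    intro e he
    by_contra h
    exact Nat.find_min hex he ⟨he.trans he0, h⟩
  set e₀ := Nat.find hex with he₀
  set D' := D - (e₀ + 1) with hD'
  have hD : D' + (e₀ + 1) = D := by omega
  refine hmin D' (by omega) ⟨k, fun i => ∑ e ∈ Finset.range D, C (γ e) * hasseDeriv (e + 1) (p i),
    fun i => ?_, ?_, ?_⟩
  · refine natDegree_sum_le_of_forall_le _ _ fun e he => ?_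
    rcases lt_or_ge e e₀ with h | h
    · rw [hlt e h, C_0, zero_mul, natDegree_zero]
      exact Nat.zero_le _
    · refine (natDegree_C_mul_le _ _).trans ((natDegree_hasseDeriv_le _ _).trans ?_)
      have := hp i
      omega
  · refine hγ.mono fun n hn => ?_
    rw [← hn]
    unfold gg op
    simp only [eval_finsetSum, eval_mul, eval_C, Finset.sum_mul, Finset.mul_sum]
    rw [Finset.sum_comm]
    refine Finset.sum_congr rfl fun e _ => Finset.sum_congr rfl fun i _ => ?_
    ring
  · intro h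
    apply htop
    refine h.mono fun n hn => ?_
    have h1 : top k (fun i => ∑ e ∈ Finset.range D, C (γ e) * hasseDeriv (e + 1) (p i)) D' a n =
        γ e₀ * (D.choose (e₀ + 1) : ℚ) * top k p D a n := by
      unfold top
      rw [Finset.mul_sum]
      refine Finset.sum_congr rfl fun i _ => ?_
      have h2 : (∑ e ∈ Finset.range D, C (γ e) * hasseDeriv (e + 1) (p i)).coeff D' =
          γ e₀ * (D.choose (e₀ + 1) : ℚ) * (p i).coeff D := by
        rw [finsetSum_coeff, Finset.sum_eq_single e₀]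
        · rw [coeff_C_mul, hasseDeriv_coeff, hD]
          ring
        · intro e he hne
          rw [coeff_C_mul, hasseDeriv_coeff]
          rcases lt_or_gt_of_ne hne with h3 | h3
          · rw [hlt e h3, zero_mul]
          · rw [coeff_eq_zero_of_natDegree_lt, mul_zero, mul_zero]
            have := hp i
            omega
        · intro h3
          exact absurd (Finset.mem_range.2 he0) h3
      rw [h2]
      ring
    rw [h1] at hn
    have h3 : (D.choose (e₀ + 1) : ℚ) ≠ 0 := by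
      have := Nat.choose_pos (n := D) (k := e₀ + 1) (by omega)
      exact_mod_cast this.ne'
    exact (mul_eq_zero.1 hn).resolve_left (mul_ne_zero hγ0 h3)

/-! ### Representations by the first `r` shifts -/

/-- `z` is a combination of the first `r` shifts of `a`, with rational functions as coefficients -/
def Rp (r : ℕ) (a z : ℕ → ℚ) : Prop :=
  ∃ (d : ℚ[X]) (S : ℕ → ℚ[X]), d ≠ 0 ∧
    ∀ᶠ n : ℕ in atTop, d.eval (n : ℚ) * z n =
      ∑ i ∈ Finset.range r, (S i).eval (n : ℚ) * a (n + i)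

lemma Rp.zero (r : ℕ) (a : ℕ → ℚ) : Rp r a (fun _ => 0) :=
  ⟨1, fun _ => 0, one_ne_zero, Eventually.of_forall fun n => by simp⟩

lemma Rp.add {r : ℕ} {a z z' : ℕ → ℚ} (h : Rp r a z) (h' : Rp r a z') :
    Rp r a (fun n => z n + z' n) := by
  obtain ⟨d, S, hd, h⟩ := h
  obtain ⟨d', S', hd', h'⟩ := h'
  refine ⟨d * d', fun i => d' * S i + d * S' i, mul_ne_zero hd hd', (h.and h').mono ?_⟩
  rintro n ⟨hn, hn'⟩
  simp only [eval_mul, eval_add, add_mul, Finset.sum_add_distrib, mul_assoc, ← Finset.mul_sum]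
  rw [← hn, ← hn']
  ring

lemma Rp.polymul {r : ℕ} {a z : ℕ → ℚ} (h : Rp r a z) (q : ℚ[X]) :
    Rp r a (fun n => q.eval (n : ℚ) * z n) := by
  obtain ⟨d, S, hd, h⟩ := h
  refine ⟨d, fun i => q * S i, hd, h.mono fun n hn => ?_⟩
  simp only [eval_mul, mul_assoc, ← Finset.mul_sum]
  rw [← hn]
  ring

lemma Rp.sum {r : ℕ} {a : ℕ → ℚ} {ι : Type} (s : Finset ι) {z : ι → ℕ → ℚ}
    (h : ∀ i ∈ s, Rp r a (z i)) : Rp r a (fun n => ∑ i ∈ s, z i n) := by
  classical
  induction s using Finset.induction_on with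
  | empty => simpa using Rp.zero r a
  | insert i s hi ih =>
    have h1 := (h i (Finset.mem_insert_self _ _)).add
      (ih fun j hj => h j (Finset.mem_insert_of_mem hj))
    simpa only [Finset.sum_insert hi] using h1

lemma Rp.shift {r : ℕ} {a z : ℕ → ℚ} {P : ℚ[X]} {q : ℕ → ℚ[X]} (hP : P ≠ 0)
    (hrec : ∀ᶠ n : ℕ in atTop, P.eval (n : ℚ) * a (n + (r + 1)) =
      ∑ i ∈ Finset.range (r + 1), (q i).eval (n : ℚ) * a (n + i))
    (h : Rp (r + 1) a z) : Rp (r + 1) a (fun n => z (n + 1)) := by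
  obtain ⟨d, S, hd, h⟩ := h
  have hsh : ∀ (f : ℚ[X]) (n : ℕ), (f.comp (X + 1)).eval (n : ℚ) = f.eval ((n + 1 : ℕ) : ℚ) := by
    intro f n
    rw [eval_comp]
    simp
  have hd' : d.comp (X + 1) ≠ 0 := by
    intro h0
    apply hd
    have h1 : (d.comp (X + 1)).comp (X - 1) = 0 := by rw [h0, zero_comp]
    rw [comp_assoc] at h1
    simpa using h1
  have h' : ∀ᶠ n : ℕ in atTop, d.eval ((n + 1 : ℕ) : ℚ) * z (n + 1) =
      ∑ i ∈ Finset.range (r + 1), (S i).eval ((n + 1 : ℕ) : ℚ) * a (n + 1 + i) :=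
    (tendsto_add_atTop_nat 1).eventually h
  refine ⟨P * d.comp (X + 1), fun i => (if i = 0 then 0 else P * (S (i - 1)).comp (X + 1)) +
    (S r).comp (X + 1) * q i, mul_ne_zero hP hd', (h'.and hrec).mono ?_⟩
  rintro n ⟨hn, hn'⟩
  rw [eval_mul, hsh, mul_assoc, hn, Finset.sum_range_succ, mul_add]
  have e1 : P.eval (n : ℚ) * ((S r).eval ((n + 1 : ℕ) : ℚ) * a (n + 1 + r)) =
      (S r).eval ((n + 1 : ℕ) : ℚ) * (P.eval (n : ℚ) * a (n + (r + 1))) := by
    have : n + 1 + r = n + (r + 1) := by ring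
    rw [this]
    ring
  rw [e1, hn']
  have e2 : ∑ i ∈ Finset.range (r + 1), ((if i = 0 then 0 else P * (S (i - 1)).comp (X + 1)) +
      (S r).comp (X + 1) * q i).eval (n : ℚ) * a (n + i) =
      (∑ i ∈ Finset.range (r + 1), (if i = 0 then 0 else P * (S (i - 1)).comp (X + 1) : ℚ[X]).eval
        (n : ℚ) * a (n + i)) + ∑ i ∈ Finset.range (r + 1),
        (S r).eval ((n + 1 : ℕ) : ℚ) * ((q i).eval (n : ℚ) * a (n + i)) := by
    rw [← Finset.sum_add_distrib]
    refine Finset.sum_congr rfl fun i _ => ?_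
    rw [eval_add, eval_mul, hsh]
    ring
  rw [e2, ← Finset.mul_sum]
  congr 1
  rw [Finset.sum_range_succ', if_pos rfl, eval_zero, zero_mul, add_zero, Finset.mul_sum]
  refine Finset.sum_congr rfl fun i _ => ?_
  rw [if_neg (by omega), Nat.add_sub_cancel, eval_mul, hsh]
  have : n + 1 + i = n + (i + 1) := by ring
  rw [this]
  ring

/-- common denominators -/
lemma Rp.common {r : ℕ} {a : ℕ → ℚ} {ι : Type} [Fintype ι] {z : ι → ℕ → ℚ}
    (h : ∀ i, Rp r a (z i)) : ∃ (d : ℚ[X]) (S : ι → ℕ → ℚ[X]), d ≠ 0 ∧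
      ∀ᶠ n : ℕ in atTop, ∀ e, d.eval (n : ℚ) * z e n =
        ∑ i ∈ Finset.range r, (S e i).eval (n : ℚ) * a (n + i) := by
  classical
  choose d S hd h using h
  refine ⟨∏ e, d e, fun e i => (∏ e' ∈ Finset.univ.erase e, d e') * S e i,
    Finset.prod_ne_zero_iff.2 fun e _ => hd e, ?_⟩
  filter_upwards [eventually_all.2 h] with n hn e
  rw [← Finset.mul_prod_erase _ _ (Finset.mem_univ e)]
  simp only [eval_mul, mul_assoc, ← Finset.mul_sum]
  rw [← hn e]
  ring

lemma eventually_ne {d : ℚ[X]} (hd : d ≠ 0) : ∀ᶠ n : ℕ in atTop, d.eval (n : ℚ) ≠ 0 := by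
  have h1 : {n : ℕ | d.eval (n : ℚ) = 0}.Finite := by
    have h2 : {x : ℚ | d.eval x = 0}.Finite := by
      refine (d.roots.toFinset.finite_toSet).subset fun x hx => ?_
      simp only [Finset.mem_coe, Multiset.mem_toFinset]
      exact (mem_roots hd).2 hx
    exact h2.preimage (Nat.cast_injective.injOn)
  have h3 := h1.compl_mem_cofinite
  rw [Nat.cofinite_eq_atTop] at h3
  exact h3

/-- a common recurrence for finitely many sequences -/
theorem common_rec {r D : ℕ} {a : ℕ → ℚ} {g : Fin D → ℕ → ℚ}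
    (h : ∀ e j, Rp r a (fun n => g e (n + j))) :
    ∃ (ρ : ℕ) (t : ℕ → ℚ[X]), t ρ ≠ 0 ∧ ∀ᶠ n : ℕ in atTop, ∀ e,
      ∑ j ∈ Finset.range (ρ + 1), (t j).eval (n : ℚ) * g e (n + j) = 0 := by
  classical
  obtain ⟨d, S, hd, hS⟩ := Rp.common (ι := Fin D × Fin (D * r + 1))
    (z := fun e n => g e.1 (n + e.2)) fun e => h e.1 e.2
  let M : (Fin (D * r + 1) → ℚ[X]) →ₗ[ℚ[X]] (Fin D × Fin r → ℚ[X]) :=
    { toFun := fun v ei => ∑ j, v j * S (ei.1, j) ei.2
      map_add' := fun v w => by
        funext ei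
        simp only [Pi.add_apply, add_mul, Finset.sum_add_distrib]
      map_smul' := fun c v => by
        funext ei
        simp only [Pi.smul_apply, smul_eq_mul, RingHom.id_apply, Finset.mul_sum, mul_assoc] }
  have hM : ¬ Function.Injective M := by
    intro hinj
    have := card_le_of_injective ℚ[X] M hinj
    simp only [Fintype.card_fin, Fintype.card_prod] at this
    omega
  obtain ⟨v, hv0, hv⟩ : ∃ v, v ≠ 0 ∧ M v = 0 := by
    rw [injective_iff_map_eq_zero] at hM
    push Not at hM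
    obtain ⟨v, h1, h2⟩ := hM
    exact ⟨v, h2, h1⟩
  set t : ℕ → ℚ[X] := fun j => if hj : j < D * r + 1 then v ⟨j, hj⟩ else 0 with ht
  have hex : ∃ j, j < D * r + 1 ∧ t j ≠ 0 := by
    obtain ⟨j, hj⟩ := Function.ne_iff.1 hv0
    refine ⟨j, j.2, ?_⟩
    simp only [ht, dif_pos j.2]
    exact hj
  set F := (Finset.range (D * r + 1)).filter (fun j => t j ≠ 0) with hF
  have hFn : F.Nonempty := by
    obtain ⟨j, hj, hj'⟩ := hex
    exact ⟨j, Finset.mem_filter.2 ⟨Finset.mem_range.2 hj, hj'⟩⟩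
  set ρ := F.max' hFn with hρ
  have hρm := Finset.mem_filter.1 (Finset.max'_mem F hFn)
  have hρ1 : ρ < D * r + 1 := Finset.mem_range.1 hρm.1
  have hgt : ∀ j, ρ < j → t j = 0 := by
    intro j hj
    by_contra hne
    have hjr : j < D * r + 1 := by
      by_contra hcon
      apply hne
      simp only [ht, dif_neg hcon]
    have := Finset.le_max' F j (Finset.mem_filter.2 ⟨Finset.mem_range.2 hjr, hne⟩)
    omega
  refine ⟨ρ, t, hρm.2, ?_⟩
  filter_upwards [hS, eventually_ne hd] with n hn hdn e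
  have h1 : ∑ j ∈ Finset.range (ρ + 1), (t j).eval (n : ℚ) * g e (n + j) =
      ∑ j ∈ Finset.range (D * r + 1), (t j).eval (n : ℚ) * g e (n + j) := by
    refine Finset.sum_subset (Finset.range_mono (by omega)) fun j _ hj => ?_
    rw [Finset.mem_range, not_lt] at hj
    rw [hgt j (by omega), eval_zero, zero_mul]
  rw [h1]
  apply (mul_eq_zero.1 _).resolve_left hdn
  rw [Finset.mul_sum, Finset.sum_range]
  calc ∑ j : Fin (D * r + 1), d.eval (n : ℚ) * ((t j).eval (n : ℚ) * g e (n + j))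
      = ∑ j : Fin (D * r + 1), ∑ i ∈ Finset.range r,
          (v j * S (e, j) i).eval (n : ℚ) * a (n + i) := by
        refine Finset.sum_congr rfl fun j _ => ?_
        have h2 := hn (e, j)
        have h3 : t j = v j := by
          simp only [ht, dif_pos j.2]
        rw [h3]
        calc d.eval (n : ℚ) * ((v j).eval (n : ℚ) * g e (n + j))
            = (v j).eval (n : ℚ) * (d.eval (n : ℚ) * g e (n + j)) := by ring
          _ = (v j).eval (n : ℚ) * ∑ i ∈ Finset.range r, (S (e, j) i).eval (n : ℚ) * a (n + i) := by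
              rw [h2]
          _ = _ := by
              rw [Finset.mul_sum]
              refine Finset.sum_congr rfl fun i _ => ?_
              rw [eval_mul]
              ring
    _ = ∑ i ∈ Finset.range r, (∑ j : Fin (D * r + 1), v j * S (e, j) i).eval (n : ℚ) *
          a (n + i) := by
        rw [Finset.sum_comm]
        refine Finset.sum_congr rfl fun i _ => ?_
        rw [eval_finsetSum, Finset.sum_mul]
    _ = 0 := by
        refine Finset.sum_eq_zero fun i hi => ?_
        have h2 := congrFun hv (e, ⟨i, Finset.mem_range.1 hi⟩)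
        change ∑ j, v j * S (e, j) i = 0 at h2
        rw [h2, eval_zero, zero_mul]

/-- a combination which vanishes at `ρ` consecutive places vanishes from there on -/
lemma vanish {D ρ : ℕ} {g : Fin D → ℕ → ℚ} {t : ℕ → ℚ[X]} {N : ℕ}
    (ht : ∀ n, N ≤ n → (t ρ).eval (n : ℚ) ≠ 0)
    (h : ∀ n, N ≤ n → ∀ e, ∑ j ∈ Finset.range (ρ + 1), (t j).eval (n : ℚ) * g e (n + j) = 0)
    {n : ℕ} (hn : N ≤ n) (v : Fin D → ℚ) (hv : ∀ j, j < ρ → ∑ e, v e * g e (n + j) = 0) (j : ℕ) :
    ∑ e, v e * g e (n + j) = 0 := by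
  induction j using Nat.strong_induction_on with
  | _ j ih =>
    rcases lt_or_ge j ρ with hj | hj
    · exact hv j hj
    · obtain ⟨l, rfl⟩ : ∃ l, j = l + ρ := ⟨j - ρ, by omega⟩
      have h1 : ∑ i ∈ Finset.range (ρ + 1), (t i).eval ((n + l : ℕ) : ℚ) *
          ∑ e, v e * g e (n + l + i) = 0 := by
        calc ∑ i ∈ Finset.range (ρ + 1), (t i).eval ((n + l : ℕ) : ℚ) *
              ∑ e, v e * g e (n + l + i)
            = ∑ e, v e * ∑ i ∈ Finset.range (ρ + 1), (t i).eval ((n + l : ℕ) : ℚ) *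
                g e (n + l + i) := by
              simp only [Finset.mul_sum]
              rw [Finset.sum_comm]
              refine Finset.sum_congr rfl fun e _ => Finset.sum_congr rfl fun i _ => ?_
              ring
          _ = 0 := Finset.sum_eq_zero fun e _ => by rw [h (n + l) (by omega) e, mul_zero]
      rw [Finset.sum_range_succ, Finset.sum_eq_zero, zero_add] at h1
      · have h2 := (mul_eq_zero.1 h1).resolve_left (ht _ (by omega))
        rwa [add_assoc] at h2
      · intro i hi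
        rw [Finset.mem_range] at hi
        have := ih (l + i) (by omega)
        rw [add_assoc, this, mul_zero]

end Pool.Agent.H43R
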