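import Mathlib

/-!
# Linear recurrences which are not simple

If a sequence of rational numbers satisfies (eventually) a linear recurrence with constant
coefficients but none whose characteristic polynomial is squarefree, then there are combinations
`c = ∑ u_i a (· + i) ≠ 0` and `∑ v_i a (· + i)` of its shifts with `n c_n = ∑ v_i a (n + i)`.
-/

set_option autoImplicit false

namespace Pool.Agent.H43R

open Polynomial Filter

/-- the shift -/
def sh : Module.End ℚ (ℕ → ℚ) where
  toFun a n := a (n + 1)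
  map_add' _ _ := rfl
  map_smul' _ _ := rfl

/-- multiplication by the index -/
def Nn : Module.End ℚ (ℕ → ℚ) where
  toFun a n := n * a n
  map_add' a b := by funext n; simp [mul_add]
  map_smul' c a := by funext n; simp; ring

@[simp] lemma sh_apply (a : ℕ → ℚ) (n : ℕ) : sh a n = a (n + 1) := rfl
@[simp] lemma Nn_apply (a : ℕ → ℚ) (n : ℕ) : Nn a n = n * a n := rfl

lemma sh_pow (a : ℕ → ℚ) (i n : ℕ) : (sh ^ i) a n = a (n + i) := by
  induction i generalizing n with
  | zero => rfl
  | succ i ih =>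
    rw [pow_succ', Module.End.mul_apply, sh_apply, ih]
    congr 1
    ring

/-- the action of the polynomials -/
noncomputable def ac (f : ℚ[X]) (a : ℕ → ℚ) : ℕ → ℚ := aeval sh f a

lemma ac_apply (f : ℚ[X]) (a : ℕ → ℚ) (n : ℕ) :
    ac f a n = f.sum fun i c => c * a (n + i) := by
  unfold ac
  rw [aeval_def, eval₂_eq_sum, Polynomial.sum_def, Polynomial.sum_def, LinearMap.sum_apply,
    Finset.sum_apply]
  refine Finset.sum_congr rfl fun i _ => ?_
  rw [Module.End.mul_apply, Module.algebraMap_end_apply, Pi.smul_apply, sh_pow, smul_eq_mul]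

lemma ac_range (f : ℚ[X]) (a : ℕ → ℚ) (n : ℕ) {k : ℕ} (hk : f.natDegree ≤ k) :
    ac f a n = ∑ i ∈ Finset.range (k + 1), f.coeff i * a (n + i) := by
  rw [ac_apply]
  exact Polynomial.sum_over_range' f (fun i => by simp) (k + 1) (by omega)

lemma ac_mul (f g : ℚ[X]) (a : ℕ → ℚ) : ac (f * g) a = ac f (ac g a) := by
  unfold ac
  rw [map_mul, Module.End.mul_apply]

lemma ac_add (f g : ℚ[X]) (a : ℕ → ℚ) : ac (f + g) a = ac f a + ac g a := by
  unfold ac
  rw [map_add, LinearMap.add_apply]

lemma ac_add' (f : ℚ[X]) (a b : ℕ → ℚ) : ac f (a + b) = ac f a + ac f b := by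
  unfold ac
  rw [map_add]

lemma ac_sub' (f : ℚ[X]) (a b : ℕ → ℚ) : ac f (a - b) = ac f a - ac f b := by
  unfold ac
  rw [map_sub]

lemma ac_zero' (f : ℚ[X]) : ac f 0 = 0 := by
  unfold ac
  rw [map_zero]

lemma ac_shift (f : ℚ[X]) (a : ℕ → ℚ) (m n : ℕ) :
    ac f (fun n => a (n + m)) n = ac f a (n + m) := by
  rw [ac_apply, ac_apply]
  congr 1
  funext i c
  congr 2
  ring

lemma ac_X_mul (f : ℚ[X]) (a : ℕ → ℚ) (n : ℕ) : ac (X * f) a n = ac f a (n + 1) := by
  rw [ac_mul]
  have : ac X (ac f a) = sh (ac f a) := by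
    unfold ac
    rw [aeval_X]
  rw [this, sh_apply]

/-- the commutation rule -/
lemma comm_End (f : ℚ[X]) : aeval sh f * Nn = Nn * aeval sh f + aeval sh (X * derivative f) := by
  have h0 : ∀ n : ℕ, sh ^ n * Nn = Nn * sh ^ n + (n : ℚ) • sh ^ n := by
    intro n
    ext a m
    simp only [Module.End.mul_apply, LinearMap.add_apply, LinearMap.smul_apply, Pi.add_apply,
      Pi.smul_apply, sh_pow, Nn_apply, smul_eq_mul]
    push_cast
    ring
  induction f using Polynomial.induction_on' with
  | add p q hp hq =>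
    rw [map_add, add_mul, hp, hq, derivative_add, mul_add, mul_add, map_add]
    abel
  | monomial n c =>
    have h1 : X * derivative (monomial n c) = monomial n (c * n) := by
      rw [derivative_monomial]
      rcases n with _ | n
      · simp
      · rw [X_mul_monomial]
        simp
    rw [h1, aeval_monomial, aeval_monomial, mul_assoc, h0 n, mul_add]
    congr 1
    · rw [← mul_assoc, ← mul_assoc, Algebra.commutes]
    · rw [Algebra.smul_def, ← mul_assoc, ← map_mul]

lemma comm (f : ℚ[X]) (a : ℕ → ℚ) :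
    ac f (Nn a) = Nn (ac f a) + ac (X * derivative f) a := by
  have := congrArg (fun φ : Module.End ℚ (ℕ → ℚ) => φ a) (comm_End f)
  unfold ac
  simpa only [Module.End.mul_apply, LinearMap.add_apply] using this

/-- a solution with many zeros at the beginning is zero -/
lemma zero_of_init {f : ℚ[X]} (hf : f ≠ 0) {y : ℕ → ℚ} (hy : ac f y = 0)
    (h0 : ∀ i, i < f.natDegree → y i = 0) : y = 0 := by
  funext n
  induction n using Nat.strong_induction_on with
  | _ n ih =>
    rcases lt_or_ge n f.natDegree with h | h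
    · exact h0 n h
    · obtain ⟨m, rfl⟩ : ∃ m, n = m + f.natDegree := ⟨n - f.natDegree, by omega⟩
      have h1 : ac f y m = 0 := by rw [hy]; rfl
      rw [ac_range f y m le_rfl, Finset.sum_range_succ, Finset.sum_eq_zero, zero_add] at h1
      · exact (mul_eq_zero.1 h1).resolve_left (leadingCoeff_ne_zero.2 hf)
      · intro i hi
        rw [Finset.mem_range] at hi
        rw [ih (m + i) (by omega)]
        simp

/-- a solution with many consecutive zeros is zero -/
lemma zero_of_window {f : ℚ[X]} (hf : f.coeff 0 ≠ 0) {y : ℕ → ℚ} (hy : ac f y = 0) {n : ℕ}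
    (h0 : ∀ i, i < f.natDegree → y (n + i) = 0) : y = 0 := by
  have hf0 : f ≠ 0 := by
    rintro rfl
    exact hf rfl
  induction n with
  | zero =>
    refine zero_of_init hf0 hy fun i hi => ?_
    have := h0 i hi
    rwa [zero_add] at this
  | succ n ih =>
    -- all later terms vanish
    have h1 : (fun m => y (m + (n + 1))) = 0 := by
      refine zero_of_init hf0 ?_ fun i hi => ?_
      · funext m
        rw [ac_shift, hy]
        rfl
      · have := h0 i hi
        rwa [add_comm] at this
    have h2 : ∀ m, n + 1 ≤ m → y m = 0 := by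
      intro m hm
      have := congrFun h1 (m - (n + 1))
      have e : m - (n + 1) + (n + 1) = m := by omega
      simp only [e] at this
      exact this
    apply ih
    intro i _
    rcases i with _ | i
    · have h3 : ac f y n = 0 := by rw [hy]; rfl
      rw [ac_range f y n le_rfl, Finset.sum_range_succ', Finset.sum_eq_zero, zero_add] at h3
      · exact (mul_eq_zero.1 h3).resolve_left hf
      · intro i _
        rw [h2 (n + (i + 1)) (by omega), mul_zero]
    · exact h2 _ (by omega)

/-- `a` satisfies eventually the recurrence with characteristic polynomial `f` -/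
def EvAnn (f : ℚ[X]) (a : ℕ → ℚ) : Prop := ∀ᶠ n in atTop, ac f a n = 0

lemma EvAnn.mul {f : ℚ[X]} {a : ℕ → ℚ} (h : EvAnn f a) (g : ℚ[X]) : EvAnn (g * f) a := by
  obtain ⟨N, hN⟩ := eventually_atTop.1 h
  refine eventually_atTop.2 ⟨N, fun n hn => ?_⟩
  rw [ac_mul, ac_apply]
  rw [Polynomial.sum_def]
  refine Finset.sum_eq_zero fun i _ => ?_
  rw [hN (n + i) (by omega), mul_zero]

lemma EvAnn.sub {f g : ℚ[X]} {a : ℕ → ℚ} (h : EvAnn f a) (h' : EvAnn g a) : EvAnn (f - g) a := by
  refine (h.and h').mono fun n hn => ?_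
  have : ac (f - g) a = ac f a - ac g a := by
    unfold ac
    rw [map_sub, LinearMap.sub_apply]
  rw [this, Pi.sub_apply, hn.1, hn.2, sub_zero]

lemma EvAnn.of_X_mul {f : ℚ[X]} {a : ℕ → ℚ} (h : EvAnn (X * f) a) : EvAnn f a := by
  obtain ⟨N, hN⟩ := eventually_atTop.1 h
  refine eventually_atTop.2 ⟨N + 1, fun n hn => ?_⟩
  have := hN (n - 1) (by omega)
  rw [ac_X_mul] at this
  have e : n - 1 + 1 = n := by omega
  rwa [e] at this

/-- the minimal polynomial -/
lemma exists_min {f : ℚ[X]} {a : ℕ → ℚ} (hf : f ≠ 0) (ha : EvAnn f a) :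
    ∃ m : ℚ[X], m ≠ 0 ∧ m.coeff 0 ≠ 0 ∧ EvAnn m a ∧ ∀ g, EvAnn g a → m ∣ g := by
  classical
  have hex : ∃ d, ∃ g : ℚ[X], g ≠ 0 ∧ EvAnn g a ∧ g.natDegree = d := ⟨_, f, hf, ha, rfl⟩
  obtain ⟨m, hm0, hm1, hm2⟩ := Nat.find_spec hex
  have hmin : ∀ g : ℚ[X], g ≠ 0 → EvAnn g a → m.natDegree ≤ g.natDegree := by
    intro g hg hg'
    rw [hm2]
    exact Nat.find_min' hex ⟨g, hg, hg', rfl⟩
  refine ⟨m, hm0, fun h0 => ?_, hm1, fun g hg => ?_⟩
  · obtain ⟨g, rfl⟩ := X_dvd_iff.2 h0
    have hg : g ≠ 0 := right_ne_zero_of_mul hm0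
    have := hmin g hg hm1.of_X_mul
    rw [natDegree_X_mul hg] at this
    omega
  · rw [← EuclideanDomain.mod_eq_zero]
    by_contra hr
    have h1 : EvAnn (g % m) a := by
      have e : g % m = g - (g / m) * m := by
        rw [eq_sub_iff_add_eq, mul_comm]
        exact EuclideanDomain.mod_add_div g m
      rw [e]
      exact hg.sub (hm1.mul _)
    have h2 := hmin _ hr h1
    have h3 : (g % m).degree < m.degree := EuclideanDomain.mod_lt g hm0
    have h4 : (g % m).natDegree < m.natDegree := natDegree_lt_natDegree hr h3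
    omega

/-- every solution is a combination of the shifts of `a` if `a` satisfies no shorter recurrence -/
lemma exists_comb {m : ℚ[X]} {a : ℕ → ℚ} (hm : m ≠ 0) (ha : ac m a = 0)
    (hmin : ∀ g, ac g a = 0 → m ∣ g) {z : ℕ → ℚ} (hz : ac m z = 0) : ∃ p, z = ac p a := by
  let ψ : degreeLT ℚ m.natDegree →ₗ[ℚ] (Fin m.natDegree → ℚ) :=
    { toFun := fun p i => ac (p : ℚ[X]) a i
      map_add' := fun p q => by
        funext i
        simp [ac_add]
      map_smul' := fun c p => by
        funext i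
        simp [ac, Pi.smul_apply] }
  have hcomm : ∀ p : ℚ[X], ac m (ac p a) = 0 := by
    intro p
    rw [← ac_mul, mul_comm, ac_mul, ha, ac_zero']
  have hinj : Function.Injective ψ := by
    rw [← LinearMap.ker_eq_bot, LinearMap.ker_eq_bot']
    intro p hp
    have h1 : ac (p : ℚ[X]) a = 0 := by
      refine zero_of_init hm (hcomm p) fun i hi => ?_
      exact congrFun hp ⟨i, hi⟩
    have h2 := hmin _ h1
    have h3 : (p : ℚ[X]).degree < m.natDegree := mem_degreeLT.1 p.2
    have h4 : (p : ℚ[X]) = 0 := by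
      refine eq_zero_of_dvd_of_degree_lt h2 ?_
      rwa [degree_eq_natDegree hm]
    exact Subtype.ext h4
  have hfin : Module.finrank ℚ (degreeLT ℚ m.natDegree) =
      Module.finrank ℚ (Fin m.natDegree → ℚ) := by
    rw [(degreeLTEquiv ℚ m.natDegree).finrank_eq]
  have : FiniteDimensional ℚ (degreeLT ℚ m.natDegree) :=
    (degreeLTEquiv ℚ m.natDegree).symm.finiteDimensional
  have hsurj : Function.Surjective ψ :=
    (LinearMap.injective_iff_surjective_of_finrank_eq_finrank hfin).1 hinj
  obtain ⟨p, hp⟩ := hsurj (fun i => z i)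
  refine ⟨p, ?_⟩
  rw [← sub_eq_zero]
  refine zero_of_init hm ?_ fun i hi => ?_
  · rw [ac_sub', hz, hcomm, sub_zero]
  · have := congrFun hp ⟨i, hi⟩
    change ac (p : ℚ[X]) a i = z i at this
    rw [Pi.sub_apply, this, sub_self]

/-- **recovering the index** -/
theorem recover {f : ℚ[X]} {a : ℕ → ℚ} (hf : f ≠ 0) (ha : EvAnn f a)
    (hns : ∀ g : ℚ[X], Squarefree g → ¬ EvAnn g a) :
    ∃ (u v : ℚ[X]) (N₀ d : ℕ), (∀ n, N₀ ≤ n → (n : ℚ) * ac u a n = ac v a n) ∧
      ∀ n, N₀ ≤ n → ∃ i, i < d ∧ ac u a (n + i) ≠ 0 := by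
  obtain ⟨m, hm0, hm1, hm2, hm3⟩ := exists_min hf ha
  obtain ⟨N₀, hN⟩ := eventually_atTop.1 hm2
  set b : ℕ → ℚ := fun n => a (n + N₀) with hb
  have hmb : ac m b = 0 := by
    funext n
    rw [hb, ac_shift, hN _ (by omega)]
    rfl
  have hev : ∀ g, ac g b = 0 → EvAnn g a := by
    intro g hg
    refine eventually_atTop.2 ⟨N₀, fun n hn => ?_⟩
    have := congrFun hg (n - N₀)
    rw [hb, ac_shift] at this
    have e : n - N₀ + N₀ = n := by omega
    rw [e] at this
    exact this
  -- the radical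
  obtain ⟨s, hs⟩ : gcd m (derivative m) ∣ m := gcd_dvd_left _ _
  obtain ⟨e, he⟩ : gcd m (derivative m) ∣ derivative m := gcd_dvd_right _ _
  set g := gcd m (derivative m) with hg
  have hg0 : g ≠ 0 := by
    rintro h0
    rw [h0, zero_mul] at hs
    exact hm0 hs
  have hes : derivative m * s = m * e := by
    rw [he]
    conv_rhs => rw [hs]
    ring
  have hc0 : ac s b ≠ 0 := by
    intro h0
    have h1 : m ∣ s := hm3 s (hev s h0)
    have hs0 : s ≠ 0 := by
      rintro h2
      rw [h2, mul_zero] at hs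
      exact hm0 hs
    have h2 : m.natDegree ≤ s.natDegree := natDegree_le_of_dvd h1 hs0
    have h3 : m.natDegree = g.natDegree + s.natDegree := by
      conv_lhs => rw [hs]
      exact natDegree_mul hg0 hs0
    have h4 : IsUnit g := by
      rw [isUnit_iff_degree_eq_zero, degree_eq_natDegree hg0]
      have : g.natDegree = 0 := by omega
      rw [this]
      rfl
    have h5 : m.Separable := by
      rw [Separable]
      exact (gcd_isUnit_iff _ _).1 h4
    exact hns m h5.squarefree hm2
  have hmc : ac m (ac s b) = 0 := by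
    rw [← ac_mul, mul_comm, ac_mul, hmb, ac_zero']
  have hNc : ac m (Nn (ac s b)) = 0 := by
    rw [comm, hmc, map_zero, zero_add, ← ac_mul]
    have e1 : X * derivative m * s = (X * e) * m := by
      rw [mul_assoc, hes]
      ring
    rw [e1, ac_mul, hmb, ac_zero']
  obtain ⟨p, hp⟩ := exists_comb hm0 hmb (fun g hg => hm3 g (hev g hg)) hNc
  refine ⟨s, p + C (N₀ : ℚ) * s, N₀, m.natDegree, fun n hn => ?_, fun n hn => ?_⟩
  · obtain ⟨k, rfl⟩ : ∃ k, n = k + N₀ := ⟨n - N₀, by omega⟩
    have h1 := congrFun hp k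
    rw [Nn_apply, hb, ac_shift, ac_shift] at h1
    rw [ac_add, Pi.add_apply, ← h1]
    have h2 : ac (C (N₀ : ℚ) * s) a (k + N₀) = N₀ * ac s a (k + N₀) := by
      unfold ac
      rw [map_mul, aeval_C, Module.End.mul_apply, Module.algebraMap_end_apply, Pi.smul_apply,
        smul_eq_mul]
    rw [h2]
    push_cast
    ring
  · by_contra hcon
    push Not at hcon
    apply hc0
    refine zero_of_window hm1 hmc (n := n - N₀) fun i hi => ?_
    have := hcon i hi
    rw [hb, ac_shift]
    have e : n - N₀ + i + N₀ = n + i := by omega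
    rw [e]
    exact this

end Pool.Agent.H43R
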