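import Pool.Agent.H43R.Hol

/-!
# P-recursive sequences which are not combinations of powers
-/

set_option autoImplicit false

namespace Pool.Agent.H43R

open Polynomial Filter

lemma Rp.base (r : ℕ) (a : ℕ → ℚ) : Rp (r + 1) a a := by
  refine ⟨1, fun i => if i = 0 then 1 else 0, one_ne_zero, Eventually.of_forall fun n => ?_⟩
  rw [Finset.sum_range_succ']
  simp only [if_true, eval_one, one_mul, add_zero]
  rw [Finset.sum_eq_zero, zero_add]
  intro i _
  rw [if_neg (by omega), eval_zero, zero_mul]

lemma Rp.term {r : ℕ} {a : ℕ → ℚ} {P : ℚ[X]} {q : ℕ → ℚ[X]} (hP : P ≠ 0)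
    (hrec : ∀ᶠ n : ℕ in atTop, P.eval (n : ℚ) * a (n + (r + 1)) =
      ∑ i ∈ Finset.range (r + 1), (q i).eval (n : ℚ) * a (n + i)) (m : ℕ) :
    Rp (r + 1) a (fun n => a (n + m)) := by
  induction m with
  | zero => exact Rp.base r a
  | succ m ih =>
    have h1 := ih.shift hP hrec
    have h2 : (fun n => a (n + (m + 1))) = fun n => a (n + 1 + m) := by
      funext n
      congr 1
      ring
    rw [h2]
    exact h1

/-- the leading coefficient -/
lemma exists_leading {a : ℕ → ℚ} {k D : ℕ} {p : ℕ → ℚ[X]} (h : ∀ᶠ n in atTop, op k p a n = 0)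
    (htop : ¬ ∀ᶠ n in atTop, top k p D a n = 0) :
    ∃ (r : ℕ) (P : ℚ[X]) (q : ℕ → ℚ[X]), P ≠ 0 ∧
      ∀ᶠ n : ℕ in atTop, P.eval (n : ℚ) * a (n + (r + 1)) =
        ∑ i ∈ Finset.range (r + 1), (q i).eval (n : ℚ) * a (n + i) := by
  classical
  set F := (Finset.range (k + 1)).filter (fun j => p j ≠ 0) with hF
  have hFn : F.Nonempty := by
    by_contra hcon
    rw [Finset.not_nonempty_iff_eq_empty] at hcon
    apply htop
    refine Eventually.of_forall fun n => Finset.sum_eq_zero fun i hi => ?_
    have : p i = 0 := by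
      by_contra hne
      have : i ∈ F := Finset.mem_filter.2 ⟨hi, hne⟩
      rw [hcon] at this
      exact absurd this (Finset.notMem_empty _)
    rw [this, coeff_zero, zero_mul]
  set R := F.max' hFn with hR
  have hRm : R ∈ Finset.range (k + 1) ∧ p R ≠ 0 := Finset.mem_filter.1 (Finset.max'_mem F hFn)
  have hR1 : R < k + 1 := Finset.mem_range.1 hRm.1
  have hgt : ∀ j, j < k + 1 → R < j → p j = 0 := by
    intro j hj hj'
    by_contra hne
    have := Finset.le_max' F j (Finset.mem_filter.2 ⟨Finset.mem_range.2 hj, hne⟩)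
    omega
  have hop : ∀ n, op k p a n = ∑ i ∈ Finset.range (R + 1), (p i).eval (n : ℚ) * a (n + i) := by
    intro n
    unfold op
    symm
    refine Finset.sum_subset (Finset.range_mono (by omega)) fun j hj hj' => ?_
    rw [Finset.mem_range] at hj
    rw [Finset.mem_range, not_lt] at hj'
    rw [hgt j hj (by omega), eval_zero, zero_mul]
  rcases Nat.eq_zero_or_pos R with h0 | hpos
  · exfalso
    apply htop
    have ha : ∀ᶠ n in atTop, a n = 0 := by
      filter_upwards [h, eventually_ne hRm.2] with n hn hn'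
      rw [hop, h0, Finset.sum_range_succ, Finset.sum_range_zero, zero_add] at hn
      rw [h0] at hn'
      exact (mul_eq_zero.1 hn).resolve_left hn'
    obtain ⟨N, hN⟩ := eventually_atTop.1 ha
    refine eventually_atTop.2 ⟨N, fun n hn => Finset.sum_eq_zero fun i _ => ?_⟩
    rw [hN (n + i) (by omega), mul_zero]
  · obtain ⟨r, hr⟩ : ∃ r, R = r + 1 := ⟨R - 1, by omega⟩
    refine ⟨r, p R, fun i => - p i, hRm.2, h.mono fun n hn => ?_⟩
    rw [hop, Finset.sum_range_succ] at hn
    simp only [eval_neg, neg_mul, Finset.sum_neg_distrib]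
    rw [hr] at hn ⊢
    linarith

/-- **The index is determined by a window.** -/
theorem recoverH {a : ℕ → ℚ} {D₀ : ℕ} (h : Rel a D₀) :
    ∃ (k J N : ℕ) (p : ℕ → ℚ[X]), ∀ n, N ≤ n → ∀ x : ℚ,
      (∀ j, j ≤ J → ∑ i ∈ Finset.range (k + 1), (p i).eval (x + j) * a (n + j + i) = 0) ↔
        x = n := by
  classical
  have hex : ∃ D, Rel a D := ⟨D₀, h⟩
  obtain ⟨k, p, hp, hop, htop⟩ := Nat.find_spec hex
  have hmin : ∀ D', D' < Nat.find hex → ¬ Rel a D' := fun D' hD' => Nat.find_min hex hD'
  set D := Nat.find hex with hD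
  have hD1 : 1 ≤ D := by
    by_contra hcon
    have h0 : D = 0 := by omega
    apply htop
    refine hop.mono fun n hn => ?_
    rw [← hn]
    unfold top op
    refine Finset.sum_congr rfl fun i _ => ?_
    have h1 := eq_C_of_natDegree_le_zero (h0 ▸ hp i)
    rw [h0]
    conv_rhs => rw [h1, eval_C]
  obtain ⟨r, P, q, hP, hrec⟩ := exists_leading hop htop
  have hRp : ∀ (e : Fin D) (j : ℕ), Rp (r + 1) a (fun n => gg k p a (e + 1) (n + j)) := by
    intro e j
    unfold gg op
    refine Rp.sum _ fun i _ => ?_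
    have h1 := (Rp.term hP hrec (j + i)).polymul ((hasseDeriv (e + 1) (p i)).comp (X + C (j : ℚ)))
    have h2 : (fun n : ℕ => (hasseDeriv (e + 1) (p i)).eval ((n + j : ℕ) : ℚ) * a (n + j + i)) =
        fun n : ℕ => ((hasseDeriv (e + 1) (p i)).comp (X + C (j : ℚ))).eval (n : ℚ) *
          a (n + (j + i)) := by
      funext n
      rw [eval_comp, ← add_assoc]
      simp
    rw [h2]
    exact h1
  obtain ⟨ρ, t, ht0, ht⟩ := common_rec (D := D) (g := fun e n => gg k p a (e + 1) n) hRp
  obtain ⟨N, hN⟩ := eventually_atTop.1 ((ht.and (eventually_ne ht0)).and hop)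
  refine ⟨k, ρ, N, p, fun n hn x => ⟨fun hx => ?_, fun hx j _ => ?_⟩⟩
  · have h1 : ∀ j, j < ρ → ∑ e : Fin D, (x - n) ^ ((e : ℕ) + 1) *
        gg k p a ((e : ℕ) + 1) (n + j) = 0 := by
      intro j hj
      have h2 := hx j hj.le
      have h3 : x + (j : ℚ) = ((n + j : ℕ) : ℚ) + (x - n) := by push_cast; ring
      rw [h3, taylor_op hp, Finset.sum_range_succ', pow_zero, one_mul] at h2
      have h4 : gg k p a 0 (n + j) = 0 := by
        unfold gg
        simp only [hasseDeriv_zero']
        exact (hN (n + j) (by omega)).2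
      rw [h4, add_zero] at h2
      rw [← h2, Finset.sum_range]
    have h5 := vanish (D := D) (g := fun e n => gg k p a (e + 1) n)
      (fun m hm => (hN m hm).1.2) (fun m hm => (hN m hm).1.1) hn
      (fun e => (x - n) ^ ((e : ℕ) + 1)) h1
    have h6 := indep hmin hp htop (fun e => (x - n) ^ (e + 1)) (by
      refine eventually_atTop.2 ⟨n, fun m hm => ?_⟩
      have h7 := h5 (m - n)
      have h8 : n + (m - n) = m := by omega
      rw [h8] at h7
      rw [← h7, Finset.sum_range])
    have h7 := h6 0 (by omega)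
    rw [zero_add, pow_one, sub_eq_zero] at h7
    exact h7
  · have h1 := (hN (n + j) (by omega)).2
    rw [← h1, hx]
    unfold op
    refine Finset.sum_congr rfl fun i _ => ?_
    push_cast
    rfl

/-- `a` satisfies eventually a nontrivial linear recurrence with polynomial coefficients -/
def PRec (a : ℕ → ℚ) : Prop :=
  ∃ (k : ℕ) (p : ℕ → ℚ[X]), (∃ i, i ≤ k ∧ p i ≠ 0) ∧ ∀ᶠ n in atTop, op k p a n = 0

theorem rel_of_prec {a : ℕ → ℚ} (h : PRec a) (hns : ∀ g : ℚ[X], Squarefree g → ¬ EvAnn g a) :
    ∃ D, Rel a D := by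
  classical
  by_cases hC : ∃ f : ℚ[X], f ≠ 0 ∧ EvAnn f a
  · obtain ⟨f, hf, hfa⟩ := hC
    obtain ⟨u, v, N₀, d, h1, h2⟩ := recover hf hfa hns
    set k := max u.natDegree v.natDegree with hk
    refine ⟨1, k, fun i => C (u.coeff i) * X - C (v.coeff i), fun i => ?_, ?_, ?_⟩
    · refine (natDegree_sub_le _ _).trans (max_le ?_ ?_)
      · exact (natDegree_C_mul_le _ _).trans natDegree_X_le
      · rw [natDegree_C]
        exact Nat.zero_le _
    · refine eventually_atTop.2 ⟨N₀, fun n hn => ?_⟩
      have h3 := h1 n hn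
      rw [ac_range u a n (le_max_left _ _), ac_range v a n (le_max_right _ _)] at h3
      unfold op
      simp only [eval_sub, eval_mul, eval_C, eval_X, sub_mul, Finset.sum_sub_distrib]
      rw [sub_eq_zero, ← h3, Finset.mul_sum]
      refine Finset.sum_congr rfl fun i _ => ?_
      ring
    · intro h3
      obtain ⟨N, hN⟩ := eventually_atTop.1 h3
      obtain ⟨i, -, hi⟩ := h2 (max N N₀) (le_max_right _ _)
      apply hi
      have h4 := hN (max N N₀ + i) ((le_max_left _ _).trans (Nat.le_add_right _ _))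
      rw [ac_range u a _ (le_max_left _ _), ← h4]
      unfold top
      refine Finset.sum_congr rfl fun j _ => ?_
      rw [coeff_sub, coeff_C_mul, coeff_X_one, mul_one, coeff_C_succ, sub_zero]
  · push Not at hC
    obtain ⟨k, p, ⟨i₀, hi₀, hp₀⟩, hp⟩ := h
    set D := (Finset.range (k + 1)).sup (fun i => (p i).natDegree) with hD
    have hle : ∀ i, i < k + 1 → (p i).natDegree ≤ D := fun i hi =>
      Finset.le_sup (f := fun i => (p i).natDegree) (Finset.mem_range.2 hi)
    have hcoef : ∃ i, i < k + 1 ∧ (p i).coeff D ≠ 0 := by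
      obtain ⟨i, hi, hi'⟩ := Finset.exists_mem_eq_sup (Finset.range (k + 1)) ⟨0, by simp⟩
        (fun i => (p i).natDegree)
      by_cases h0 : p i = 0
      · refine ⟨i₀, by omega, ?_⟩
        have hD0 : D = 0 := by
          rw [hD, hi', h0, natDegree_zero]
        have h1 := hle i₀ (by omega)
        have h2 : (p i₀).natDegree = D := by omega
        rw [← h2]
        exact leadingCoeff_ne_zero.2 hp₀
      · refine ⟨i, Finset.mem_range.1 hi, ?_⟩
        have h2 : (p i).natDegree = D := by rw [hD, hi']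
        rw [← h2]
        exact leadingCoeff_ne_zero.2 h0
    refine ⟨D, k, fun i => if i < k + 1 then p i else 0, fun i => ?_, ?_, ?_⟩
    · dsimp only
      split_ifs with hi
      · exact hle i hi
      · rw [natDegree_zero]
        exact Nat.zero_le _
    · refine hp.mono fun n hn => ?_
      rw [← hn]
      unfold op
      refine Finset.sum_congr rfl fun i hi => ?_
      dsimp only
      rw [if_pos (Finset.mem_range.1 hi)]
    · intro h3
      set f : ℚ[X] := ∑ i ∈ Finset.range (k + 1), monomial i ((p i).coeff D) with hf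
      have hfc : ∀ i, i < k + 1 → f.coeff i = (p i).coeff D := by
        intro i hi
        rw [hf, finsetSum_coeff, Finset.sum_eq_single i]
        · rw [coeff_monomial, if_pos rfl]
        · intro j _ hj
          rw [coeff_monomial, if_neg hj]
        · intro h4
          exact absurd (Finset.mem_range.2 hi) h4
      have hf0 : f ≠ 0 := by
        intro h4
        obtain ⟨i, hi, hi'⟩ := hcoef
        apply hi'
        rw [← hfc i hi, h4, coeff_zero]
      have hfd : f.natDegree ≤ k := by
        refine natDegree_sum_le_of_forall_le _ _ fun i hi => ?_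
        exact (natDegree_monomial_le _).trans (by have := Finset.mem_range.1 hi; omega)
      apply hC f hf0
      refine h3.mono fun n hn => ?_
      rw [ac_range f a n hfd, ← hn]
      unfold top
      refine Finset.sum_congr rfl fun i hi => ?_
      dsimp only
      rw [hfc i (Finset.mem_range.1 hi), if_pos (Finset.mem_range.1 hi)]

end Pool.Agent.H43R
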