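import Pool.Agent.H43R.Hyp.HL

/-!
# Sequences `f` of positive numbers with `n ^ e (f(n + 1) / f(n) - 1) → ρ > 0`
-/

set_option autoImplicit false
set_option maxHeartbeats 1000000

namespace Pool.Agent.H43R

open Filter Topology

/-- `0 < f(n)` for large `n` and `n ^ e (f(n + 1) / f(n) - 1) → ρ > 0` -/
structure Rg (f : ℕ → ℚ) (e : ℕ) (ρ : ℝ) : Prop where
  e1 : 1 ≤ e
  pos : 0 < ρ
  fpos : ∀ᶠ n in atTop, 0 < f n
  lim : Tendsto (fun n : ℕ => (n : ℝ) ^ e * ((f (n + 1) : ℝ) / f n - 1)) atTop (𝓝 ρ)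

/-- the lower bound for the steps -/
def Lo (f : ℕ → ℚ) (e : ℕ) (c₁ : ℚ) (N : ℕ) : Prop :=
  1 ≤ N ∧ 0 < c₁ ∧ ∀ n, N ≤ n → 0 < f n ∧ c₁ * f n < (n : ℚ) ^ e * (f (n + 1) - f n)

lemma Lo.lt {f : ℕ → ℚ} {e : ℕ} {c₁ : ℚ} {N : ℕ} (h : Lo f e c₁ N) {j l : ℕ} (hj : N ≤ j)
    (hjl : j < l) : f j < f l := by
  obtain ⟨hN, hc, h⟩ := h
  have step : ∀ n, N ≤ n → f n < f (n + 1) := by
    intro n hn
    obtain ⟨h1, h2⟩ := h n hn
    have h3 : (0 : ℚ) < (n : ℚ) ^ e := pow_pos (by exact_mod_cast (by omega : 0 < n)) _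
    have h4 : 0 < (n : ℚ) ^ e * (f (n + 1) - f n) := lt_trans (mul_pos hc h1) h2
    have h5 := pos_of_mul_pos_right h4 h3.le
    linarith
  induction l, hjl using Nat.le_induction with
  | base => exact step j hj
  | succ l hl ih => exact ih.trans (step l (by omega))

lemma Lo.mono {f : ℕ → ℚ} {e : ℕ} {c₁ : ℚ} {N M : ℕ} (h : Lo f e c₁ N) (hNM : N ≤ M) :
    Lo f e c₁ M :=
  ⟨h.1.trans hNM, h.2.1, fun n hn => h.2.2 n (hNM.trans hn)⟩

lemma gap_reg {f : ℕ → ℚ} {e : ℕ} {c₁ c₂ η : ℚ} {N : ℕ} (h : Lo f e c₁ N) (hc : 3 * c₂ < 4 * c₁)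
    (hη : (1 + η) ^ e < 3 / 2) {x : ℚ} (hx : 0 < x) {j l : ℕ} (hj : N ≤ j) (hl : N ≤ l)
    (hjx : (j : ℚ) + 1 ≤ (1 + η) * x) (h1 : f j < f l) (h2 : x ^ e * (f l - f j) < c₂ * f j) :
    l = j + 1 := by
  by_contra hne
  rcases lt_or_ge j l with hlt | hge
  · have hj2 : j + 2 ≤ l := by omega
    have k0 : f (j + 2) ≤ f l := by
      rcases hj2.eq_or_lt with h3 | h3
      · rw [h3]
      · exact (h.lt (by omega) h3).le
    obtain ⟨k1, k2⟩ := h.2.2 j hj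
    obtain ⟨k3, k4⟩ := h.2.2 (j + 1) (by omega)
    have k5 : f j < f (j + 1) := h.lt hj (by omega)
    have hj0 : (0 : ℚ) ≤ j := Nat.cast_nonneg _
    set t : ℚ := ((j : ℚ) + 1) ^ e with ht
    have ht0 : 0 < t := pow_pos (by linarith) _
    have hs0 : 0 < x ^ e := pow_pos hx _
    have hjt : (j : ℚ) ^ e ≤ t := pow_le_pow_left₀ hj0 (by linarith) _
    have hts : t ≤ 3 / 2 * x ^ e := by
      calc t ≤ ((1 + η) * x) ^ e := pow_le_pow_left₀ (by linarith) hjx _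
        _ = (1 + η) ^ e * x ^ e := mul_pow _ _ _
        _ ≤ _ := mul_le_mul_of_nonneg_right hη.le hs0.le
    have k6 : c₁ * f j < t * (f (j + 1) - f j) :=
      lt_of_lt_of_le k2 (mul_le_mul_of_nonneg_right hjt (by linarith))
    have e0 : ((j + 1 : ℕ) : ℚ) = (j : ℚ) + 1 := by push_cast; ring
    rw [e0] at k4
    have k7 : c₁ * f j < t * (f (j + 2) - f (j + 1)) :=
      lt_trans (mul_lt_mul_of_pos_left k5 h.2.1) k4
    have k8 : t * (f (j + 2) - f j) ≤ t * (f l - f j) :=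
      mul_le_mul_of_nonneg_left (by linarith) ht0.le
    have k9 : t * (f l - f j) ≤ 3 / 2 * x ^ e * (f l - f j) :=
      mul_le_mul_of_nonneg_right hts (by linarith)
    nlinarith
  · rcases hge.eq_or_lt with h3 | h3
    · rw [h3] at h1
      exact lt_irrefl _ h1
    · exact absurd (h.lt hl h3) (not_lt.2 h1.le)

/-- bounds for the steps -/
lemma Rg.bd {f : ℕ → ℚ} {e : ℕ} {ρ : ℝ} (h : Rg f e ρ) {c₁ c₂ : ℚ} (h0 : 0 < c₁)
    (h1 : (c₁ : ℝ) < ρ) (h2 : ρ < c₂) :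
    ∃ N, Lo f e c₁ N ∧ ∀ n, N ≤ n → (n : ℚ) ^ e * (f (n + 1) - f n) < c₂ * f n := by
  obtain ⟨N, hN⟩ := eventually_atTop.1 (h.fpos.and ((h.lim.eventually_const_lt h1).and
    (h.lim.eventually_lt_const h2)))
  have key : ∀ n, max N 1 ≤ n → 0 < f n ∧ c₁ * f n < (n : ℚ) ^ e * (f (n + 1) - f n) ∧
      (n : ℚ) ^ e * (f (n + 1) - f n) < c₂ * f n := by
    intro n hn
    obtain ⟨k1, k2, k3⟩ := hN n ((le_max_left _ _).trans hn)
    have k4 : (0 : ℝ) < f n := by exact_mod_cast k1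
    have k5 : (n : ℝ) ^ e * ((f (n + 1) : ℝ) / f n - 1) * f n = (n : ℝ) ^ e * (f (n + 1) - f n) := by
      field_simp
    refine ⟨k1, ?_, ?_⟩
    · have := mul_lt_mul_of_pos_right k2 k4
      rw [k5] at this
      exact_mod_cast this
    · have := mul_lt_mul_of_pos_right k3 k4
      rw [k5] at this
      exact_mod_cast this
  exact ⟨max N 1, ⟨le_max_right _ _, h0, fun n hn => ⟨(key n hn).1, (key n hn).2.1⟩⟩,
    fun n hn => (key n hn).2.2⟩

/-- the index is bounded by one more term, `e ≥ 2` -/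
lemma reg_two {f : ℕ → ℚ} {m : ℕ} (hm : 0 < m) {ρ : ℝ} (h : Rg f (m + 1) ρ) {η : ℚ}
    (hη : 0 < η) :
    ∃ κ σ : ℚ, 0 < κ ∧ σ ≤ (1 + η) * κ ∧ ∃ N : ℕ, 1 ≤ N ∧
        (∀ j l : ℕ, N ≤ j → j ≤ l → (j : ℚ) ^ m * f l ≤ ((j : ℚ) ^ m + σ) * f j) ∧
        ∀ n : ℕ, N ≤ n → ∀ᶠ l : ℕ in atTop, ((n : ℚ) ^ m + κ) * f n < (n : ℚ) ^ m * f l := by
  have hρ := h.pos
  have hm0 : (0 : ℝ) < m := by exact_mod_cast hm
  have hη' : (0 : ℝ) < η := by exact_mod_cast hη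
  set R : ℝ := ρ / m with hR
  have hR0 : 0 < R := by positivity
  obtain ⟨σ, hσ1, hσ2⟩ := exists_rat_btwn (show R < R * (1 + η) by nlinarith)
  have hσ0 : 0 < σ := by
    have : (0 : ℝ) < σ := hR0.trans hσ1
    exact_mod_cast this
  set κ : ℚ := σ / (1 + η) with hκ
  have hκ0 : 0 < κ := by positivity
  have hκR : (κ : ℝ) < R := by
    rw [hκ]
    push_cast
    rw [div_lt_iff₀ (by linarith)]
    exact hσ2
  obtain ⟨τ, hτ1, hτ2⟩ := exists_rat_btwn hκR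
  have hκτ : κ < τ := by exact_mod_cast hτ1
  have hτ0 : 0 < τ := hκ0.trans hκτ
  have hτρ : (τ : ℝ) * m < ρ := by
    rw [← lt_div_iff₀ hm0]
    exact hτ2
  have hσρ : ρ < (σ : ℝ) * m := by
    rw [← div_lt_iff₀ hm0]
    exact hσ1
  have hσκ : σ ≤ (1 + η) * κ := by
    rw [hκ]
    apply le_of_eq
    field_simp
  set s : ℕ → ℝ := fun n => (f (n + 1) : ℝ) / f n - 1 with hs
  have hn1 : Tendsto (fun n : ℕ => 1 / (n : ℝ)) atTop (𝓝 0) :=
    tendsto_one_div_atTop_nhds_zero_nat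
  have hinv : Tendsto (fun n : ℕ => 1 + 1 / (n : ℝ)) atTop (𝓝 1) := by
    simpa using hn1.const_add 1
  have hU : Tendsto (fun n : ℕ => ((n : ℝ) ^ (m + 1) * s n) *
      ((1 + 1 / (n : ℝ)) ^ m + σ * (1 / (n : ℝ)) ^ m)) atTop (𝓝 ρ) := by
    have h2 : Tendsto (fun n : ℕ => (σ : ℝ) * (1 / (n : ℝ)) ^ m) atTop (𝓝 0) := by
      have := (hn1.pow m).const_mul (σ : ℝ)
      rwa [zero_pow hm.ne', mul_zero] at this
    have h3 := (hinv.pow m).add h2
    rw [one_pow, add_zero] at h3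
    simpa using h.lim.mul h3
  have hV : Tendsto (fun n : ℕ => ((n : ℝ) ^ (m + 1) * s n) * (1 + 1 / (n : ℝ))) atTop (𝓝 ρ) := by
    simpa using h.lim.mul hinv
  obtain ⟨N₀, hN₀⟩ := eventually_atTop.1 ((hU.eventually_lt_const hσρ).and
    ((hV.eventually_const_lt hτρ).and ((h.lim.eventually_const_lt hρ).and h.fpos)))
  set N := max N₀ 1 with hN
  have hNN : N₀ ≤ N := le_max_left _ _
  have hN1 : 1 ≤ N := le_max_right _ _
  have hnX : ∀ n : ℕ, N ≤ n → (0 : ℚ) < n := by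
    intro n hn
    exact_mod_cast (by omega : 0 < n)
  have hfp : ∀ n : ℕ, N ≤ n → 0 < f n := fun n hn => (hN₀ n (hNN.trans hn)).2.2.2
  set r : ℕ → ℚ := fun n => f (n + 1) / f n - 1 with hr
  have hrs : ∀ n, ((r n : ℚ) : ℝ) = s n := by
    intro n
    simp only [hr, hs]
    push_cast
    rfl
  have hf : ∀ n : ℕ, N ≤ n → f (n + 1) = (1 + r n) * f n := by
    intro n hn
    have := (hfp n hn).ne'
    simp only [hr]
    field_simp
    ring
  have hr0 : ∀ n : ℕ, N ≤ n → 0 < r n := by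
    intro n hn
    have h3 := (hN₀ n (hNN.trans hn)).2.2.1
    have h4 : (0 : ℝ) < (n : ℝ) ^ (m + 1) := by
      have : (0 : ℝ) < n := by exact_mod_cast hnX n hn
      positivity
    have h5 : 0 < s n := pos_of_mul_pos_right h3 h4.le
    rw [← hrs] at h5
    exact_mod_cast h5
  -- the two monotone products
  have up : ∀ n : ℕ, N ≤ n →
      (1 + σ / ((n + 1 : ℕ) : ℚ) ^ m) * f (n + 1) ≤ (1 + σ / (n : ℚ) ^ m) * f n := by
    intro n hn
    have h2 := hnX n hn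
    have h3 := hfp n hn
    rw [hf n hn, ← mul_assoc]
    refine mul_le_mul_of_nonneg_right ?_ h3.le
    have k1 := (hN₀ n (hNN.trans hn)).1
    have hn1 : ((n + 1 : ℕ) : ℚ) = (n : ℚ) + 1 := by push_cast; ring
    rw [hn1]
    have hA : 0 < (n : ℚ) ^ m := pow_pos h2 _
    have hB : 0 < ((n : ℚ) + 1) ^ m := pow_pos (by linarith) _
    have hbern : (n : ℚ) ^ m + m * (n : ℚ) ^ m / n ≤ ((n : ℚ) + 1) ^ m := by
      have e1 := one_add_mul_le_pow (a := 1 / (n : ℚ)) (by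
        have : (0 : ℚ) ≤ 1 / n := by positivity
        linarith) m
      have e2 : ((n : ℚ) + 1) ^ m = (n : ℚ) ^ m * (1 + 1 / n) ^ m := by
        rw [← mul_pow]
        congr 1
        field_simp
      rw [e2]
      calc (n : ℚ) ^ m + m * (n : ℚ) ^ m / n = (n : ℚ) ^ m * (1 + m * (1 / n)) := by ring
        _ ≤ _ := mul_le_mul_of_nonneg_left e1 hA.le
    have k2 : r n * n * (((n : ℚ) + 1) ^ m + σ) < σ * m := by
      have h2r : (0 : ℝ) < n := by exact_mod_cast h2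
      have e3 : (1 + 1 / (n : ℝ)) ^ m = ((n : ℝ) + 1) ^ m / (n : ℝ) ^ m := by
        rw [← div_pow]
        congr 1
        field_simp
      have e4 : (1 / (n : ℝ)) ^ m = 1 / (n : ℝ) ^ m := by rw [div_pow, one_pow]
      rw [e3, e4, ← hrs] at k1
      have e5 : ((r n : ℚ) : ℝ) * n * (((n : ℝ) + 1) ^ m + σ) < σ * m := by
        calc ((r n : ℚ) : ℝ) * n * (((n : ℝ) + 1) ^ m + σ) = (n : ℝ) ^ (m + 1) * r n *
              (((n : ℝ) + 1) ^ m / (n : ℝ) ^ m + σ * (1 / (n : ℝ) ^ m)) := by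
              rw [pow_succ]
              field_simp
          _ < _ := k1
      exact_mod_cast e5
    have k3 : r n * (((n : ℚ) + 1) ^ m + σ) < σ * m / n := by
      rw [lt_div_iff₀ h2]
      linarith
    have k4 : σ * m / n ≤ σ * (((n : ℚ) + 1) ^ m / (n : ℚ) ^ m - 1) := by
      have e5 : (m : ℚ) / n ≤ ((n : ℚ) + 1) ^ m / (n : ℚ) ^ m - 1 := by
        rw [le_sub_iff_add_le, le_div_iff₀ hA]
        calc ((m : ℚ) / n + 1) * (n : ℚ) ^ m = (n : ℚ) ^ m + m * (n : ℚ) ^ m / n := by ring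
          _ ≤ _ := hbern
      calc σ * m / n = σ * (m / n) := by ring
        _ ≤ _ := mul_le_mul_of_nonneg_left e5 hσ0.le
    have k6 : (1 + σ / ((n : ℚ) + 1) ^ m) * (1 + r n) =
        (((n : ℚ) + 1) ^ m + σ + r n * (((n : ℚ) + 1) ^ m + σ)) / ((n : ℚ) + 1) ^ m := by
      field_simp
    rw [k6, div_le_iff₀ hB]
    have k7 : (1 + σ / (n : ℚ) ^ m) * ((n : ℚ) + 1) ^ m =
        ((n : ℚ) + 1) ^ m + σ + σ * (((n : ℚ) + 1) ^ m / (n : ℚ) ^ m - 1) := by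
      field_simp
      ring
    rw [k7]
    linarith
  have down : ∀ n : ℕ, N ≤ n →
      (1 + τ / (n : ℚ) ^ m) * f n ≤ (1 + τ / ((n + 1 : ℕ) : ℚ) ^ m) * f (n + 1) := by
    intro n hn
    have h2 := hnX n hn
    have h3 := hfp n hn
    rw [hf n hn, ← mul_assoc]
    refine mul_le_mul_of_nonneg_right ?_ h3.le
    have k1 := (hN₀ n (hNN.trans hn)).2.1
    have hn1 : ((n + 1 : ℕ) : ℚ) = (n : ℚ) + 1 := by push_cast; ring
    rw [hn1]
    have hA : 0 < (n : ℚ) ^ m := pow_pos h2 _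
    have hB : 0 < ((n : ℚ) + 1) ^ m := pow_pos (by linarith) _
    have hrn := hr0 n hn
    have hbern : ((n : ℚ) + 1) ^ m - m * ((n : ℚ) + 1) ^ m / (n + 1) ≤ (n : ℚ) ^ m := by
      have e1 := one_add_mul_le_pow (a := -(1 / ((n : ℚ) + 1))) (by
        have : 1 / ((n : ℚ) + 1) ≤ 1 := by
          rw [div_le_one (by linarith)]
          linarith
        linarith) m
      have e2 : (n : ℚ) ^ m = ((n : ℚ) + 1) ^ m * (1 + -(1 / ((n : ℚ) + 1))) ^ m := by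
        rw [← mul_pow]
        congr 1
        field_simp
        ring
      rw [e2]
      calc ((n : ℚ) + 1) ^ m - m * ((n : ℚ) + 1) ^ m / (n + 1)
          = ((n : ℚ) + 1) ^ m * (1 + m * (-(1 / ((n : ℚ) + 1)))) := by ring
        _ ≤ _ := mul_le_mul_of_nonneg_left e1 hB.le
    have k2 : τ * m < r n * (n : ℚ) ^ m * (n + 1) := by
      have h2r : (0 : ℝ) < n := by exact_mod_cast h2
      rw [← hrs] at k1
      have e5 : (τ : ℝ) * m < r n * (n : ℝ) ^ m * (n + 1) := by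
        calc (τ : ℝ) * m < (n : ℝ) ^ (m + 1) * r n * (1 + 1 / n) := k1
          _ = _ := by
            rw [pow_succ]
            field_simp
      exact_mod_cast e5
    have k3 : τ * (1 - (n : ℚ) ^ m / ((n : ℚ) + 1) ^ m) ≤ r n * (n : ℚ) ^ m := by
      have e5 : 1 - (n : ℚ) ^ m / ((n : ℚ) + 1) ^ m ≤ m / ((n : ℚ) + 1) := by
        rw [sub_le_comm, le_div_iff₀ hB]
        calc (1 - (m : ℚ) / (n + 1)) * ((n : ℚ) + 1) ^ m
            = ((n : ℚ) + 1) ^ m - m * ((n : ℚ) + 1) ^ m / (n + 1) := by ring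
          _ ≤ _ := hbern
      have e6 : τ * (m / ((n : ℚ) + 1)) ≤ r n * (n : ℚ) ^ m := by
        rw [← mul_div_assoc, div_le_iff₀ (by linarith)]
        exact k2.le
      exact (mul_le_mul_of_nonneg_left e5 hτ0.le).trans e6
    have k6 : (1 + τ / ((n : ℚ) + 1) ^ m) * (1 + r n) ≥
        1 + τ / ((n : ℚ) + 1) ^ m + r n := by
      have : 0 ≤ τ / ((n : ℚ) + 1) ^ m * r n := by positivity
      nlinarith
    refine le_trans ?_ k6
    have k7 : τ / (n : ℚ) ^ m = τ / ((n : ℚ) + 1) ^ m +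
        τ * (1 - (n : ℚ) ^ m / ((n : ℚ) + 1) ^ m) / (n : ℚ) ^ m := by
      field_simp
      ring
    have k8 : τ * (1 - (n : ℚ) ^ m / ((n : ℚ) + 1) ^ m) / (n : ℚ) ^ m ≤ r n := by
      rw [div_le_iff₀ hA]
      exact k3
    rw [k7]
    linarith
  have up' : ∀ j l : ℕ, N ≤ j → j ≤ l →
      (1 + σ / (l : ℚ) ^ m) * f l ≤ (1 + σ / (j : ℚ) ^ m) * f j := by
    intro j l hj hjl
    induction l, hjl using Nat.le_induction with
    | base => exact le_rfl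
    | succ l hl ih => exact (up l (by omega)).trans ih
  have down' : ∀ j l : ℕ, N ≤ j → j ≤ l →
      (1 + τ / (j : ℚ) ^ m) * f j ≤ (1 + τ / (l : ℚ) ^ m) * f l := by
    intro j l hj hjl
    induction l, hjl using Nat.le_induction with
    | base => exact le_rfl
    | succ l hl ih => exact ih.trans (down l (by omega))
  refine ⟨κ, σ, hκ0, hσκ, N, hN1, fun j l hj hjl => ?_, fun n hn => ?_⟩
  · have h1 := up' j l hj hjl
    have h2 := hnX j hj
    have h2' := hnX l (hj.trans hjl)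
    have hA : 0 < (j : ℚ) ^ m := pow_pos h2 _
    have hbl := hfp l (hj.trans hjl)
    have h3 : f l ≤ (1 + σ / (l : ℚ) ^ m) * f l := by
      have : 0 ≤ σ / (l : ℚ) ^ m * f l := by positivity
      linarith
    calc (j : ℚ) ^ m * f l ≤ (j : ℚ) ^ m * ((1 + σ / (j : ℚ) ^ m) * f j) :=
          mul_le_mul_of_nonneg_left (h3.trans h1) hA.le
      _ = _ := by field_simp
  · have h2 := hnX n hn
    have hA : 0 < (n : ℚ) ^ m := pow_pos h2 _
    have hbn := hfp n hn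
    have h3 : Tendsto (fun l : ℕ => 1 + τ / (l : ℚ) ^ m) atTop (𝓝 1) := by
      have h4 : Tendsto (fun l : ℕ => τ / (l : ℚ) ^ m) atTop (𝓝 0) :=
        Tendsto.const_div_atTop ((tendsto_pow_atTop hm.ne').comp
          (tendsto_natCast_atTop_atTop (R := ℚ))) _
      simpa using h4.const_add 1
    have h4 : ((n : ℚ) ^ m + κ) * 1 < (n : ℚ) ^ m + τ := by linarith
    have h5 : Tendsto (fun l : ℕ => ((n : ℚ) ^ m + κ) * (1 + τ / (l : ℚ) ^ m)) atTop
        (𝓝 (((n : ℚ) ^ m + κ) * 1)) := h3.const_mul _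
    filter_upwards [h5.eventually_lt_const h4, eventually_ge_atTop n] with l hl hnl
    have h6 := down' n l hn hnl
    have h2' := hnX l (hn.trans hnl)
    have hC : 0 < 1 + τ / (l : ℚ) ^ m := by positivity
    refine lt_of_mul_lt_mul_right ?_ hC.le
    calc ((n : ℚ) ^ m + κ) * f n * (1 + τ / (l : ℚ) ^ m)
        = ((n : ℚ) ^ m + κ) * (1 + τ / (l : ℚ) ^ m) * f n := by ring
      _ < ((n : ℚ) ^ m + τ) * f n := mul_lt_mul_of_pos_right hl hbn
      _ = (n : ℚ) ^ m * ((1 + τ / (n : ℚ) ^ m) * f n) := by field_simp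
      _ ≤ (n : ℚ) ^ m * ((1 + τ / (l : ℚ) ^ m) * f l) := mul_le_mul_of_nonneg_left h6 hA.le
      _ = _ := by ring

/-- the index is bounded by a power of `x`, `e = 1` -/
lemma reg_one {f : ℕ → ℚ} {p q : ℕ} (hp : 0 < p) {c : ℝ} (hc : 0 < c)
    (h : Tendsto (fun n : ℕ => (f n : ℝ) ^ q / (n : ℝ) ^ p) atTop (𝓝 c)) {η : ℚ} (hη : 0 < η) :
    ∃ (C₁ C₂ : ℚ), 0 < C₁ ∧ C₂ = C₁ * (1 + η) ^ p ∧
      ∀ᶠ n : ℕ in atTop, C₁ * (n : ℚ) ^ p < f n ^ q ∧ f n ^ q < C₂ * (n : ℚ) ^ p := by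
  have hη' : (0 : ℝ) < η := by exact_mod_cast hη
  have hlam : (1 : ℝ) < (1 + η) ^ p := one_lt_pow₀ (by linarith) hp.ne'
  obtain ⟨C₂, hC1, hC2⟩ := exists_rat_btwn (show c < c * (1 + η) ^ p by nlinarith)
  have hC2' : 0 < C₂ := by
    have : (0 : ℝ) < C₂ := hc.trans hC1
    exact_mod_cast this
  have hl0 : (0 : ℚ) < (1 + η) ^ p := by positivity
  refine ⟨C₂ / (1 + η) ^ p, C₂, by positivity, by field_simp, ?_⟩
  have hlow : ((C₂ / (1 + η) ^ p : ℚ) : ℝ) < c := by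
    push_cast
    rw [div_lt_iff₀ (by positivity)]
    exact hC2
  filter_upwards [h.eventually_const_lt hlow, h.eventually_lt_const hC1,
    eventually_ge_atTop 1] with n h1 h2 h3
  have hn0 : (0 : ℝ) < n := by exact_mod_cast h3
  rw [lt_div_iff₀ (by positivity)] at h1
  rw [div_lt_iff₀ (by positivity)] at h2
  constructor
  · exact_mod_cast h1
  · exact_mod_cast h2

end Pool.Agent.H43R
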