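import Pool.Agent.H43R.Reg
import Pool.Agent.H43R.Hyp.HK

/-!
# Existential definitions from P-recursive sequences with quotients tending to `1` or `-1`
-/

set_option autoImplicit false
set_option maxHeartbeats 1000000

namespace Pool.Agent.H43R

open Filter Topology
open Pool.Agent.TH255.HC Pool.Agent.TH255.QI Pool.Agent.K9h58.QD

variable {𝒯 : Set ℚ → Prop}

lemma QF.pos {f : (ℕ → ℚ) → ℚ} (hf : QF f) : DT 𝒯 (fun _ v => 0 < f v) := by
  refine (hf.nonneg.and hf.ne).congr fun _ _ v => ?_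
  constructor
  · intro h
    exact ⟨h.le, h.ne'⟩
  · rintro ⟨h1, h2⟩
    exact lt_of_le_of_ne h1 (Ne.symm h2)

/-- the numbers recovered from windows -/
def Hr (K M J k : ℕ) (p : ℕ → Polynomial ℚ) (a : ℕ → ℚ) (C G : ℚ → ℚ → ℚ → Prop)
    (T : Set ℚ) : Set ℚ :=
  {x | ∃ u : ℕ → ℚ, (∀ i ∈ List.range (K + 2), u i ∈ T ∧
      ∀ l ∈ List.range M, u i ^ 2 + (-1) * a l ^ 2 ≠ 0) ∧
    (∀ i ∈ List.range K, C (x + i) (u i) (u (i + 1))) ∧
    (∀ j ∈ List.range (J + 1), ∑ i ∈ Finset.range (k + 1), (p i).eval (x + j) * u (j + i) = 0) ∧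
    0 ≤ x + (-(M : ℚ)) ∧ G x (u 0) (u (K + 1))}

theorem dt_Hr (K M J k : ℕ) (p : ℕ → Polynomial ℚ) (a : ℕ → ℚ) (C G : ℚ → ℚ → ℚ → Prop)
    (hC : ∀ i : ℕ, DT 𝒯 (fun _ w => C (w (2 * 0) + i) (w (2 * i + 1)) (w (2 * (i + 1) + 1))))
    (hG : DT 𝒯 (fun _ w => G (w (2 * 0)) (w (2 * 0 + 1)) (w (2 * (K + 1) + 1)))) :
    DT 𝒯 (fun T v => v 0 ∈ Hr K M J k p a C G T) := by
  refine DT.exs (P := fun T v u => (∀ i ∈ List.range (K + 2), u i ∈ T ∧
      ∀ l ∈ List.range M, u i ^ 2 + (-1) * a l ^ 2 ≠ 0) ∧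
    (∀ i ∈ List.range K, C (v 0 + i) (u i) (u (i + 1))) ∧
    (∀ j ∈ List.range (J + 1),
      ∑ i ∈ Finset.range (k + 1), (p i).eval (v 0 + j) * u (j + i) = 0) ∧
    0 ≤ v 0 + (-(M : ℚ)) ∧ G (v 0) (u 0) (u (K + 1))) ?_
  refine DT.and ?_ (DT.and ?_ (DT.and ?_ (DT.and ?_ ?_)))
  · refine DT.list _ fun i => (DT.mem (PF.od i)).and (DT.list _ fun l => QF.ne ?_)
    have h1 : QF (fun w : ℕ → ℚ => w (2 * i + 1) ^ 2) := QF.of_pf ((PF.od i).pow 2)
    have h2 : QF (fun _ : ℕ → ℚ => (-1) * a l ^ 2) := QF.const _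
    exact h1.add h2
  · exact DT.list _ fun i => hC i
  · refine DT.list _ fun j => QF.dt (QF.sum _ fun i => ?_)
    exact (QF.poly (p i) ((QF.of_pf (PF.var (2 * 0))).add (QF.const j))).mul
      (QF.of_pf (PF.od (j + i)))
  · exact QF.nonneg ((QF.of_pf (PF.var (2 * 0))).add (QF.const (-(M : ℚ))))
  · exact hG

/-- the general step -/
theorem reg_main {a : ℕ → ℚ} {k J N M : ℕ} {p : ℕ → Polynomial ℚ} {η : ℚ} (hη : 0 ≤ η)
    (hp : ∀ n, N ≤ n → ∀ x : ℚ,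
      (∀ j, j ≤ J → ∑ i ∈ Finset.range (k + 1), (p i).eval (x + j) * a (n + j + i) = 0) ↔
        x = n) (hNM : N ≤ M)
    (hnew : ∀ c : ℚ, ∀ᶠ n in atTop, a n ^ 2 ≠ c)
    {C G : ℚ → ℚ → ℚ → Prop}
    (hC : ∀ (𝒯 : Set ℚ → Prop) (i : ℕ),
      DT 𝒯 (fun _ w => C (w (2 * 0) + i) (w (2 * i + 1)) (w (2 * (i + 1) + 1))))
    (hG : ∀ (𝒯 : Set ℚ → Prop) (K : ℕ),
      DT 𝒯 (fun _ w => G (w (2 * 0)) (w (2 * 0 + 1)) (w (2 * (K + 1) + 1))))
    (hC1 : ∀ (x : ℚ) (j l : ℕ), (M : ℚ) ≤ x → M ≤ j → M ≤ l → (j : ℚ) + 1 ≤ (1 + η) * x →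
      C x (a j) (a l) → l = j + 1)
    (hC2 : ∀ᶠ n : ℕ in atTop, C n (a n) (a (n + 1)))
    (hG1 : ∀ (x : ℚ) (j l : ℕ), (M : ℚ) ≤ x → M ≤ j → M ≤ l → G x (a j) (a l) →
      (j : ℚ) + 1 ≤ (1 + η) * x)
    (hG2 : ∀ᶠ n : ℕ in atTop, ∀ᶠ l : ℕ in atTop, G n (a n) (a l))
    {α : ℝ} (hα : 0 < α) {P' : (ℕ → ℚ) → Prop}
    (hP' : ∀ A δ : ℝ, δ < 1 / 2 → DT (Qu A δ) (fun _ v => P' v)) :
    DT (fun T => ∃ S : Set ℕ, Dns {n : ℕ | ∀ i, i ≤ k + J → n + i ∈ S} α ∧ T = a '' S)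
      (fun _ v => P' v) := by
  set K := k + J with hK
  refine dt_sub (Φ := Hr K M J k p a C G) (𝒯' := fun T => (∀ x ∈ T, ∃ z : ℤ, x = z) ∧
    Banach (MvPolynomial.X 0 : MvPolynomial (Fin 1) ℤ) (α / 2) T) ?_
    (dt_Hr K M J k p a C G (hC _) (hG _ K)) (dt_banach _ (by positivity) hP')
  have hnew' : ∀ᶠ n : ℕ in atTop, ∀ l ∈ List.range M, a n ^ 2 + (-1) * a l ^ 2 ≠ 0 := by
    have h1 : ∀ᶠ n : ℕ in atTop, ∀ l ∈ Finset.range M, a n ^ 2 ≠ a l ^ 2 :=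
      (Filter.eventually_all_finset _).2 fun l _ => hnew _
    filter_upwards [h1] with n hn l hl h0
    exact hn l (by simpa using hl) (by linarith)
  rintro T ⟨S, hS, rfl⟩
  refine ⟨?_, ?_⟩
  · rintro x ⟨u, hu1, hu2, hu3, hx, hGx⟩
    have hx' : (M : ℚ) ≤ x := by linarith
    have hex : ∀ i, ∃ n, i < K + 2 → M ≤ n ∧ a n = u i := by
      intro i
      by_cases hi : i < K + 2
      · obtain ⟨⟨n, -, hn⟩, h1⟩ := hu1 i (List.mem_range.2 hi)
        refine ⟨n, fun _ => ⟨?_, hn⟩⟩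
        by_contra hcon
        push Not at hcon
        apply h1 n (List.mem_range.2 hcon)
        rw [← hn]
        ring
      · exact ⟨0, fun h => absurd h hi⟩
    choose ν hν using hex
    have h0 : (ν 0 : ℚ) + 1 ≤ (1 + η) * x := by
      refine hG1 x (ν 0) (ν (K + 1)) hx' (hν 0 (by omega)).1 (hν (K + 1) (by omega)).1 ?_
      rw [(hν 0 (by omega)).2, (hν (K + 1) (by omega)).2]
      exact hGx
    have key : ∀ i, i ≤ K → ν i = ν 0 + i := by
      intro i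
      induction i with
      | zero => exact fun _ => rfl
      | succ i ih =>
        intro hi
        have e1 := ih (by omega)
        have hi0 : (0 : ℚ) ≤ i := Nat.cast_nonneg _
        have e3 : (ν i : ℚ) + 1 ≤ (1 + η) * (x + i) := by
          rw [e1]
          push_cast
          nlinarith
        have e4 := hC1 (x + i) (ν i) (ν (i + 1)) (by linarith) (hν i (by omega)).1
          (hν (i + 1) (by omega)).1 e3 (by
            rw [(hν i (by omega)).2, (hν (i + 1) (by omega)).2]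
            exact hu2 i (List.mem_range.2 (by omega)))
        rw [e4, e1]
        ring
    refine ⟨ν 0, ?_⟩
    push_cast
    refine (hp (ν 0) (hNM.trans (hν 0 (by omega)).1) x).1 fun j hj => ?_
    rw [← hu3 j (by rw [List.mem_range]; omega)]
    refine Finset.sum_congr rfl fun i hi => ?_
    rw [Finset.mem_range] at hi
    rw [← (hν (j + i) (by omega)).2, key (j + i) (by omega), add_assoc]
  · obtain ⟨n₁, hn₁⟩ := eventually_atTop.1 ((hnew'.and hG2).and hC2)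
    refine banach_of_dns (k := k) (J := J) (N := M) (n₁ := n₁) hα hS
      fun n hn hN hw => ?_
    rw [← hK] at hw
    obtain ⟨M₂, hM₂⟩ := eventually_atTop.1 (hn₁ n hn).1.2
    obtain ⟨l, hl, hlS⟩ := infinite_of_dns hα hS (max M₂ n₁)
    have hl1 : M₂ ≤ l := (le_max_left _ _).trans hl
    have hl2 : n₁ ≤ l := (le_max_right _ _).trans hl
    refine ⟨fun i => if i ≤ K then a (n + i) else a l, fun i hi => ?_, fun i hi => ?_,
      fun j hj => ?_, ?_, ?_⟩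
    · by_cases hiK : i ≤ K
      · simp only [if_pos hiK]
        exact ⟨⟨n + i, hw i hiK, rfl⟩, (hn₁ (n + i) (by omega)).1.1⟩
      · simp only [if_neg hiK]
        exact ⟨⟨l, hlS, rfl⟩, (hn₁ l hl2).1.1⟩
    · have hi' := List.mem_range.1 hi
      simp only [if_pos hi'.le, if_pos (show i + 1 ≤ K by omega)]
      have e1 := (hn₁ (n + i) (by omega)).2
      push_cast at e1
      rw [← add_assoc]
      exact e1
    · have hj' := List.mem_range.1 hj
      have e1 := (hp n (hNM.trans hN) n).2 rfl j (by omega)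
      rw [← e1]
      refine Finset.sum_congr rfl fun i hi => ?_
      rw [Finset.mem_range] at hi
      simp only [if_pos (show j + i ≤ K by omega)]
      rw [add_assoc]
    · have : (M : ℚ) ≤ n := by exact_mod_cast hN
      linarith
    · have := hM₂ l hl1
      simpa using this

/-- `u ^ 2` or its inverse -/
def val (b : Bool) (u : ℚ) : ℚ := if b then u ^ 2 else (u ^ 2)⁻¹

lemma val_pos {b : Bool} {u : ℚ} (h : u ≠ 0) : 0 < val b u := by
  have : 0 < u ^ 2 := by positivity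
  cases b
  · simpa [val] using this
  · simpa [val] using this

lemma ne_of_val {b : Bool} {u : ℚ} (h : 0 < val b u) : u ≠ 0 := by
  rintro rfl
  cases b <;> simp [val] at h

/-- the condition for a step -/
def Cb (b : Bool) (e : ℕ) (c : ℚ) (y u u' : ℚ) : Prop :=
  if b then 0 < u' ^ 2 + (-1) * u ^ 2 ∧ 0 < c * u ^ 2 + (-1) * (y ^ e * (u' ^ 2 + (-1) * u ^ 2))
  else 0 < u ^ 2 + (-1) * u' ^ 2 ∧ 0 < c * u' ^ 2 + (-1) * (y ^ e * (u ^ 2 + (-1) * u' ^ 2))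

lemma cb_iff {b : Bool} {e : ℕ} {c y u u' : ℚ} (hu : u ≠ 0) (hu' : u' ≠ 0) :
    Cb b e c y u u' ↔ val b u < val b u' ∧ y ^ e * (val b u' - val b u) < c * val b u := by
  have h1 : 0 < u ^ 2 := by positivity
  have h2 : 0 < u' ^ 2 := by positivity
  cases b
  · simp only [Cb, val, Bool.false_eq_true, if_false]
    have h3 : (u ^ 2)⁻¹ < (u' ^ 2)⁻¹ ↔ 0 < u ^ 2 + (-1) * u' ^ 2 := by
      rw [inv_lt_inv₀ h1 h2]
      constructor <;> intro h <;> linarith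
    have h4 : c * u' ^ 2 + (-1) * (y ^ e * (u ^ 2 + (-1) * u' ^ 2)) =
        (c * (u ^ 2)⁻¹ - y ^ e * ((u' ^ 2)⁻¹ - (u ^ 2)⁻¹)) * (u ^ 2 * u' ^ 2) := by
      field_simp
      ring
    rw [h3, h4, mul_pos_iff_of_pos_right (by positivity), sub_pos]
  · simp only [Cb, val, if_true]
    constructor
    · rintro ⟨h3, h4⟩
      exact ⟨by linarith, by linarith⟩
    · rintro ⟨h3, h4⟩
      exact ⟨by linarith, by linarith⟩

lemma dt_cb (b : Bool) (e : ℕ) (c : ℚ) (i : ℕ) :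
    DT 𝒯 (fun _ w => Cb b e c (w (2 * 0) + i) (w (2 * i + 1)) (w (2 * (i + 1) + 1))) := by
  have hy : QF (fun w : ℕ → ℚ => (w (2 * 0) + (i : ℚ)) ^ e) :=
    ((QF.of_pf (PF.var (2 * 0))).add (QF.const i)).pow e
  have hu : QF (fun w : ℕ → ℚ => w (2 * i + 1) ^ 2) := QF.of_pf ((PF.od i).pow 2)
  have hu' : QF (fun w : ℕ → ℚ => w (2 * (i + 1) + 1) ^ 2) := QF.of_pf ((PF.od (i + 1)).pow 2)
  cases b
  · have h1 := hu.add ((QF.const (-1)).mul hu')
    have h2 := ((QF.const c).mul hu').add ((QF.const (-1)).mul (hy.mul h1))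
    simpa only [Cb, Bool.false_eq_true, if_false] using h1.pos.and h2.pos
  · have h1 := hu'.add ((QF.const (-1)).mul hu)
    have h2 := ((QF.const c).mul hu).add ((QF.const (-1)).mul (hy.mul h1))
    simpa only [Cb, if_true] using h1.pos.and h2.pos

/-- the condition for the bound, `e = m + 1 ≥ 2` -/
def Gb (b : Bool) (m : ℕ) (κ : ℚ) (y u u' : ℚ) : Prop :=
  if b then 0 ≤ y ^ m * u' ^ 2 + (-1) * ((y ^ m + κ) * u ^ 2)
  else 0 ≤ y ^ m * u ^ 2 + (-1) * ((y ^ m + κ) * u' ^ 2)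

lemma gb_iff {b : Bool} {m : ℕ} {κ y u u' : ℚ} (hu : u ≠ 0) (hu' : u' ≠ 0) :
    Gb b m κ y u u' ↔ (y ^ m + κ) * val b u ≤ y ^ m * val b u' := by
  have h1 : 0 < u ^ 2 := by positivity
  have h2 : 0 < u' ^ 2 := by positivity
  cases b
  · simp only [Gb, val, Bool.false_eq_true, if_false]
    have h4 : y ^ m * u ^ 2 + (-1) * ((y ^ m + κ) * u' ^ 2) =
        (y ^ m * (u' ^ 2)⁻¹ - (y ^ m + κ) * (u ^ 2)⁻¹) * (u ^ 2 * u' ^ 2) := by
      field_simp
      ring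
    rw [h4, mul_nonneg_iff_of_pos_right (by positivity), sub_nonneg]
  · simp only [Gb, val, if_true]
    constructor <;> intro h <;> linarith

lemma dt_gb (b : Bool) (m : ℕ) (κ : ℚ) (K : ℕ) :
    DT 𝒯 (fun _ w => Gb b m κ (w (2 * 0)) (w (2 * 0 + 1)) (w (2 * (K + 1) + 1))) := by
  have hy : QF (fun w : ℕ → ℚ => (w (2 * 0)) ^ m) := (QF.of_pf (PF.var (2 * 0))).pow m
  have hu : QF (fun w : ℕ → ℚ => w (2 * 0 + 1) ^ 2) := QF.of_pf ((PF.od 0).pow 2)
  have hu' : QF (fun w : ℕ → ℚ => w (2 * (K + 1) + 1) ^ 2) := QF.of_pf ((PF.od (K + 1)).pow 2)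
  cases b
  · have h2 := (hy.mul hu).add ((QF.const (-1)).mul ((hy.add (QF.const κ)).mul hu'))
    simpa only [Gb, Bool.false_eq_true, if_false] using h2.nonneg
  · have h2 := (hy.mul hu').add ((QF.const (-1)).mul ((hy.add (QF.const κ)).mul hu))
    simpa only [Gb, if_true] using h2.nonneg

/-- the condition for the bound, `e = 1` -/
def Fb (b : Bool) (p q : ℕ) (c : ℚ) (y u : ℚ) (_ : ℚ) : Prop :=
  if b then 0 ≤ c * y ^ p + (-1) * (u ^ 2) ^ q else 0 ≤ c * y ^ p * (u ^ 2) ^ q + (-1)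

lemma fb_iff {b : Bool} {p q : ℕ} {c y u u' : ℚ} (hu : u ≠ 0) :
    Fb b p q c y u u' ↔ val b u ^ q ≤ c * y ^ p := by
  have h1 : 0 < u ^ 2 := by positivity
  cases b
  · simp only [Fb, val, Bool.false_eq_true, if_false]
    have h4 : c * y ^ p * (u ^ 2) ^ q + (-1) = (c * y ^ p - (u ^ 2)⁻¹ ^ q) * (u ^ 2) ^ q := by
      rw [sub_mul, ← mul_pow, inv_mul_cancel₀ h1.ne', one_pow]
      ring
    rw [h4, mul_nonneg_iff_of_pos_right (by positivity), sub_nonneg]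
  · simp only [Fb, val, if_true]
    constructor <;> intro h <;> linarith

lemma dt_fb (b : Bool) (p q : ℕ) (c : ℚ) (K : ℕ) :
    DT 𝒯 (fun _ w => Fb b p q c (w (2 * 0)) (w (2 * 0 + 1)) (w (2 * (K + 1) + 1))) := by
  have hy : QF (fun w : ℕ → ℚ => c * (w (2 * 0)) ^ p) :=
    (QF.const c).mul ((QF.of_pf (PF.var (2 * 0))).pow p)
  have hu : QF (fun w : ℕ → ℚ => (w (2 * 0 + 1) ^ 2) ^ q) := QF.of_pf (((PF.od 0).pow 2).pow q)
  cases b
  · have h2 := (hy.mul hu).add (QF.const (-1))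
    simpa only [Fb, Bool.false_eq_true, if_false] using h2.nonneg
  · have h2 := hy.add ((QF.const (-1)).mul hu)
    simpa only [Fb, if_true] using h2.nonneg

end Pool.Agent.H43R
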