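import Pool.Agent.H43R.RegDef

/-!
# P-recursive sequences with quotients tending to `1` or `-1`
-/

set_option autoImplicit false
set_option maxHeartbeats 1000000

namespace Pool.Agent.H43R

open Filter Topology
open Pool.Agent.TH255.HC Pool.Agent.TH255.QI Pool.Agent.K9h58.QD

theorem dt_reg {a : ℕ → ℚ} (ha : PRec a)
    (hns : ∀ g : Polynomial ℚ, Squarefree g → ¬ EvAnn g a) {b : Bool} {e : ℕ} {ρ : ℝ}
    (h : Rg (fun n => val b (a n)) e ρ)
    (h1 : e = 1 → ∃ (p q : ℕ) (c : ℝ), 0 < p ∧ 0 < c ∧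
      Tendsto (fun n : ℕ => ((val b (a n) : ℚ) : ℝ) ^ q / (n : ℝ) ^ p) atTop (𝓝 c)) :
    ∃ K : ℕ, ∀ {α : ℝ}, 0 < α → ∀ {P' : (ℕ → ℚ) → Prop},
      (∀ A δ : ℝ, δ < 1 / 2 → DT (Qu A δ) (fun _ v => P' v)) →
      DT (fun T => ∃ S : Set ℕ, Dns {n : ℕ | ∀ i, i ≤ K → n + i ∈ S} α ∧ T = a '' S)
        (fun _ v => P' v) := by
  obtain ⟨D, hD⟩ := rel_of_prec ha hns
  obtain ⟨k, J, N, p, hp⟩ := recoverH hD
  refine ⟨k + J, fun {α} hα {P'} hP' => ?_⟩
  set f : ℕ → ℚ := fun n => val b (a n) with hf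
  have hρ := h.pos
  obtain ⟨c₁, hc1, hc1'⟩ := exists_rat_btwn (show (7 / 8 : ℝ) * ρ < ρ by linarith)
  obtain ⟨c₂, hc2, hc2'⟩ := exists_rat_btwn (show ρ < (9 / 8 : ℝ) * ρ by linarith)
  have hc0 : 0 < c₁ := by
    have : (0 : ℝ) < c₁ := lt_trans (by positivity) hc1
    exact_mod_cast this
  have hc : 3 * c₂ < 4 * c₁ := by
    have : 3 * (c₂ : ℝ) < 4 * c₁ := by linarith
    exact_mod_cast this
  obtain ⟨η, hη1, hη⟩ : ∃ η : ℚ, (1 + η) ^ e < 3 / 2 ∧ 0 < η := by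
    have h1 : Tendsto (fun η : ℚ => (1 + η) ^ e) (𝓝[>] 0) (𝓝 1) := by
      have h2 : Continuous fun η : ℚ => (1 + η) ^ e := by fun_prop
      have h3 := h2.tendsto 0
      simp only [add_zero, one_pow] at h3
      exact h3.mono_left nhdsWithin_le_nhds
    have h2 : ∀ᶠ η : ℚ in 𝓝[>] 0, (1 + η) ^ e < 3 / 2 :=
      h1.eventually_lt_const (by norm_num)
    exact (h2.and self_mem_nhdsWithin).exists
  obtain ⟨N₁, hLo, hUp⟩ := h.bd hc0 hc1' hc2
  set η' := η / 2 with hη'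
  have hη0 : 0 < η' := by positivity
  obtain ⟨N₃, hN₃⟩ := exists_nat_ge (1 / η')
  have hne : ∀ j, N₁ ≤ j → a j ≠ 0 := fun j hj => ne_of_val (hLo.2.2 j hj).1
  have hnew : ∀ c : ℚ, ∀ᶠ n in atTop, a n ^ 2 ≠ c := by
    intro c
    have h2 := ev_new (b := f) (M := N₁) (fun j l hj hjl => hLo.lt hj hjl)
      (if b then c else c⁻¹)
    refine h2.mono fun n hn h3 => hn ?_
    rw [hf]
    simp only [val, h3]
  have fin : ∀ (N₄ : ℕ) (G : ℚ → ℚ → ℚ → Prop),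
      (∀ (𝒯 : Set ℚ → Prop) (K : ℕ),
        DT 𝒯 (fun _ w => G (w (2 * 0)) (w (2 * 0 + 1)) (w (2 * (K + 1) + 1)))) →
      (∀ (x : ℚ) (j l : ℕ), 1 ≤ x → N₁ ≤ j → N₁ ≤ l → N₄ ≤ j → N₄ ≤ l → G x (a j) (a l) →
        (j : ℚ) ≤ (1 + η') * x) →
      (∀ᶠ n : ℕ in atTop, ∀ᶠ l : ℕ in atTop, G n (a n) (a l)) →
      DT (fun T => ∃ S : Set ℕ, Dns {n : ℕ | ∀ i, i ≤ k + J → n + i ∈ S} α ∧ T = a '' S)
        (fun _ v => P' v) := by
    intro N₄ G hG hG1 hG2
    set M := max (max N N₁) (max N₃ N₄) with hM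
    have hNM : N ≤ M := (le_max_left _ _).trans (le_max_left _ _)
    have hN1M : N₁ ≤ M := (le_max_right _ _).trans (le_max_left _ _)
    have hN3M : N₃ ≤ M := (le_max_left _ _).trans (le_max_right _ _)
    have hN4M : N₄ ≤ M := (le_max_right _ _).trans (le_max_right _ _)
    have hM1 : (1 : ℚ) ≤ M := by exact_mod_cast hLo.1.trans hN1M
    have hM3 : (N₃ : ℚ) ≤ M := by exact_mod_cast hN3M
    refine reg_main (M := M) (η := η) (C := Cb b e c₂) (G := G) hη.le hp hNM hnew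
      (fun 𝒯 i => dt_cb b e c₂ i) hG ?_ ?_ ?_ hG2 hα hP'
    · intro x j l hx hj hl hjx hCx
      rw [cb_iff (hne j (hN1M.trans hj)) (hne l (hN1M.trans hl))] at hCx
      exact gap_reg (f := f) hLo hc hη1 (by linarith) (hN1M.trans hj) (hN1M.trans hl) hjx
        hCx.1 hCx.2
    · filter_upwards [eventually_ge_atTop N₁] with n hn
      rw [cb_iff (hne n hn) (hne (n + 1) (by omega))]
      exact ⟨hLo.lt (f := f) hn (Nat.lt_succ_self n), hUp n hn⟩
    · intro x j l hx hj hl hGx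
      have h5 := hG1 x j l (by linarith) (hN1M.trans hj) (hN1M.trans hl) (hN4M.trans hj)
        (hN4M.trans hl) hGx
      have h6 : 1 / η' ≤ x := by linarith
      rw [div_le_iff₀ hη0] at h6
      have h7 : η = 2 * η' := by rw [hη']; ring
      rw [h7]
      linarith
  have he1 := h.e1
  rcases Nat.lt_or_ge 1 e with he2 | he2
  · -- `e ≥ 2`
    obtain ⟨m, rfl⟩ : ∃ m, e = m + 1 := ⟨e - 1, by omega⟩
    have hm : 0 < m := by omega
    obtain ⟨κ, σ, hκ, hσκ, N₀, hN0, hb1, hb2⟩ := reg_two hm h hη0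
    refine fin N₀ (Gb b m κ) (fun 𝒯 K => dt_gb b m κ K) ?_ ?_
    · intro x j l hx hj hl hj0' hl0' hGx
      rw [gb_iff (hne j hj) (hne l hl)] at hGx
      have hbj : 0 < f j := (hLo.2.2 j hj).1
      have hx0 : 0 < x ^ m := pow_pos (by linarith) _
      have hGx' : (x ^ m + κ) * f j ≤ x ^ m * f l := hGx
      have hjl : j ≤ l := by
        by_contra hcon
        push Not at hcon
        have h2 : f l < f j := hLo.lt (f := f) hl hcon
        have h3 := mul_lt_mul_of_pos_left h2 hx0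
        nlinarith [mul_pos hκ hbj]
      have h2 : (j : ℚ) ^ m * f l ≤ ((j : ℚ) ^ m + σ) * f j := hb1 j l hj0' hjl
      have hj1 : (1 : ℚ) ≤ j := by
        have : 1 ≤ j := hLo.1.trans hj
        exact_mod_cast this
      have hj0 : 0 < (j : ℚ) ^ m := pow_pos (by linarith) _
      have h3 : (x ^ m + κ) * (j : ℚ) ^ m ≤ x ^ m * ((j : ℚ) ^ m + σ) := by
        refine le_of_mul_le_mul_right ?_ hbj
        calc (x ^ m + κ) * (j : ℚ) ^ m * f j = (j : ℚ) ^ m * ((x ^ m + κ) * f j) := by ring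
          _ ≤ (j : ℚ) ^ m * (x ^ m * f l) := mul_le_mul_of_nonneg_left hGx' hj0.le
          _ = x ^ m * ((j : ℚ) ^ m * f l) := by ring
          _ ≤ x ^ m * (((j : ℚ) ^ m + σ) * f j) := mul_le_mul_of_nonneg_left h2 hx0.le
          _ = _ := by ring
      have h4 : κ * (j : ℚ) ^ m ≤ κ * ((1 + η') * x ^ m) := by
        have h5 := mul_le_mul_of_nonneg_right hσκ hx0.le
        nlinarith
      have h5 : (j : ℚ) ^ m ≤ (1 + η') * x ^ m := le_of_mul_le_mul_left h4 hκ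
      have h6 : (1 + η') * x ^ m ≤ ((1 + η') * x) ^ m := by
        rw [mul_pow]
        refine mul_le_mul_of_nonneg_right ?_ hx0.le
        exact le_self_pow₀ (by linarith) hm.ne'
      exact le_of_pow_le_pow_left₀ hm.ne' (by positivity) (h5.trans h6)
    · filter_upwards [eventually_ge_atTop (max N₀ N₁)] with n hn
      filter_upwards [hb2 n ((le_max_left _ _).trans hn), eventually_ge_atTop N₁] with l hl hl1
      rw [gb_iff (hne n ((le_max_right _ _).trans hn)) (hne l hl1)]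
      exact hl.le
  · -- `e = 1`
    have he3 : e = 1 := by omega
    obtain ⟨p', q, c, hp', hc', hlim⟩ := h1 he3
    obtain ⟨C₁, C₂, hC₁, hC₂, hev⟩ := reg_one (f := f) hp' hc' hlim hη0
    obtain ⟨N₅, hN₅⟩ := eventually_atTop.1 hev
    refine fin N₅ (Fb b p' q C₂) (fun 𝒯 K => dt_fb b p' q C₂ K) ?_ ?_
    · intro x j l hx hj hl hj5 hl5 hGx
      rw [fb_iff (hne j hj)] at hGx
      have h0 : f j ^ q ≤ C₂ * x ^ p' := hGx
      have h1 := (hN₅ j hj5).1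
      have h2 : C₁ * (j : ℚ) ^ p' < C₁ * ((1 + η') * x) ^ p' := by
        rw [mul_pow, ← mul_assoc, ← hC₂]
        linarith
      have h3 : (j : ℚ) ^ p' < ((1 + η') * x) ^ p' := lt_of_mul_lt_mul_left h2 hC₁.le
      exact (lt_of_pow_lt_pow_left₀ p' (by positivity) h3).le
    · filter_upwards [eventually_ge_atTop N₅, eventually_ge_atTop N₁] with n hn hn1
      refine Eventually.of_forall fun l => ?_
      rw [fb_iff (hne n hn1)]
      exact (hN₅ n hn).2.le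

/-- the hypothesis on the growth, for `f = |a|` or `f = 1 / |a|` -/
def Rgl (f : ℕ → ℝ) : Prop :=
  (∀ᶠ n in atTop, 0 < f n) ∧ ∃ (e : ℕ) (ρ : ℝ), 1 ≤ e ∧ 0 < ρ ∧
    Tendsto (fun n : ℕ => (n : ℝ) ^ e * (f (n + 1) / f n - 1)) atTop (𝓝 ρ) ∧
    (e = 1 → ∃ (p q : ℕ) (c : ℝ), 0 < p ∧ 0 < c ∧
      Tendsto (fun n : ℕ => f n ^ q / (n : ℝ) ^ p) atTop (𝓝 c))

lemma reg_sq {f : ℕ → ℝ} (hf : Rgl f) {g : ℕ → ℚ} (hg : ∀ n, (g n : ℝ) = f n ^ 2) :
    ∃ (e : ℕ) (ρ : ℝ), Rg g e ρ ∧ (e = 1 → ∃ (p q : ℕ) (c : ℝ), 0 < p ∧ 0 < c ∧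
      Tendsto (fun n : ℕ => (g n : ℝ) ^ q / (n : ℝ) ^ p) atTop (𝓝 c)) := by
  obtain ⟨hpos, e, ρ, he, hρ, hlim, h1⟩ := hf
  refine ⟨e, ρ * 2, ⟨he, by positivity, hpos.mono fun n hn => ?_, ?_⟩, fun he1 => ?_⟩
  · have : (0 : ℝ) < g n := by
      rw [hg]
      positivity
    exact_mod_cast this
  · have h2 : Tendsto (fun n : ℕ => (1 / (n : ℝ)) ^ e) atTop (𝓝 0) := by
      have := (tendsto_one_div_atTop_nhds_zero_nat (𝕜 := ℝ)).pow e
      rwa [zero_pow (by omega)] at this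
    have h3 : Tendsto (fun n : ℕ => f (n + 1) / f n - 1) atTop (𝓝 0) := by
      have h4 := h2.mul hlim
      rw [zero_mul] at h4
      refine h4.congr' ?_
      filter_upwards [eventually_gt_atTop 0] with n hn
      have hn0 : (n : ℝ) ≠ 0 := by exact_mod_cast hn.ne'
      rw [← mul_assoc, ← mul_pow, one_div, inv_mul_cancel₀ hn0, one_pow, one_mul]
    have h4 : Tendsto (fun n : ℕ => (n : ℝ) ^ e * (f (n + 1) / f n - 1) *
        ((f (n + 1) / f n - 1) + 2)) atTop (𝓝 (ρ * 2)) := by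
      have h5 := hlim.mul (h3.add_const 2)
      rwa [zero_add] at h5
    refine h4.congr fun n => ?_
    rw [hg, hg]
    ring
  · obtain ⟨p, q, c, hp, hc, h2⟩ := h1 he1
    refine ⟨p * 2, q, c ^ 2, by positivity, by positivity, (h2.pow 2).congr fun n => ?_⟩
    rw [hg, div_pow, ← pow_mul, ← pow_mul, ← pow_mul, mul_comm q 2]

theorem dt_regular {a : ℕ → ℚ} (ha : PRec a)
    (hns : ∀ g : Polynomial ℚ, Squarefree g → ¬ EvAnn g a)
    (h : Rgl (fun n => |(a n : ℝ)|) ∨ Rgl (fun n => |(a n : ℝ)|⁻¹)) :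
    ∃ K : ℕ, ∀ {α : ℝ}, 0 < α → ∀ {P' : (ℕ → ℚ) → Prop},
      (∀ A δ : ℝ, δ < 1 / 2 → DT (Qu A δ) (fun _ v => P' v)) →
      DT (fun T => ∃ S : Set ℕ, Dns {n : ℕ | ∀ i, i ≤ K → n + i ∈ S} α ∧ T = a '' S)
        (fun _ v => P' v) := by
  rcases h with h | h
  · obtain ⟨e, ρ, h1, h2⟩ := reg_sq (g := fun n => val true (a n)) h (fun n => by
      simp only [val, if_true]
      push_cast
      rw [sq_abs])
    exact dt_reg (b := true) ha hns h1 h2
  · obtain ⟨e, ρ, h1, h2⟩ := reg_sq (g := fun n => val false (a n)) h (fun n => by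
      simp only [val, Bool.false_eq_true, if_false]
      push_cast
      rw [inv_pow, sq_abs])
    exact dt_reg (b := false) ha hns h1 h2

end Pool.Agent.H43R
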